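import Pool.Agent.Lib.MP_bcd198_co.D.StarUse

/-!
# MP_bcd198_co, Stream D, job BackB: the graph is recovered from its map
-/

set_option autoImplicit false

namespace MPbcd198.D

open Equiv

variable {p q : ℕ}

/-- if the map is transitive the graph is connected: for `g` in the group generated by `permA`,
`permB`, `permC`, `C 0` and `(g C) 0` are joined by a path (`Subgroup.closure_induction`;
`(a C) 0 = C 1` is adjacent to `C 0`, the vertex number 0 of `b C`, `c C` is `C 0`). -/
theorem trans_connected {V : Type} {G : SimpleGraph V} [Nonempty V]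
    (hs : ∀ v, HasStar p q G v) (h : TwoCyc p G) (ht : TripTrans (pcTrip h)) : G.Connected := by
  have key : ∀ g ∈ Subgroup.closure ({(pcTrip h).1, (pcTrip h).2.1, (pcTrip h).2.2} :
      Set (Perm (PC p G))), ∀ C : PC p G, G.Reachable (C.1 0) ((g C).1 0) := by
    intro g hg
    induction hg using Subgroup.closure_induction with
    | mem x hx =>
      intro C
      simp only [Set.mem_insert_iff, Set.mem_singleton_iff] at hx
      rcases hx with rfl | rfl | rfl
      · change G.Reachable (C.1 0) ((opA C).1 0)
        rw [opA_apply, sub_zero]
        have := (C.2.2 0).reachable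
        rwa [zero_add] at this
      · change G.Reachable (C.1 0) ((opB C).1 0)
        rw [opB_apply, neg_zero]
      · change G.Reachable (C.1 0) ((opC h C).1 0)
        rw [(opC_spec h C).2.1]
    | one => intro C; exact SimpleGraph.Reachable.refl _
    | mul x y _ _ hx hy =>
      intro C
      rw [Perm.mul_apply]
      exact (hy C).trans (hx (y C))
    | inv x _ hx =>
      intro C
      have h1 := hx (x⁻¹ C)
      have h2 : x (x⁻¹ C) = C := x.apply_symm_apply C
      rw [h2] at h1
      exact h1.symm
  refine ⟨fun v w => ?_⟩
  obtain ⟨C, rfl⟩ := exists_pc hs v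
  obtain ⟨C', rfl⟩ := exists_pc hs w
  obtain ⟨g, hg, rfl⟩ := ht C C'
  exact key g hg C

end MPbcd198.D
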