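import Pool.Agent.Lib.MP_bcd198_co.D.StarUse

/-!
# MP_bcd198_co, Stream D, job BackA: the graph is recovered from its map
-/

set_option autoImplicit false

namespace MPbcd198.D

open Equiv

variable {p q : ℕ}

/-- an isomorphism of the maps preserves the relation (same vertex number 0): by `same_vertex` `C' = π C` with
`π ∈ ⟨permB, permC⟩`; `e (π C) = π' (e C)` with `π' ∈ ⟨permB, permC⟩` on the other side
(`Subgroup.closure_induction`), and `permB`, `permC` do not change the vertex number 0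
(`(opB C) 0 = C (-0) = C 0`, `opC_spec`). -/
theorem tiso_vertex (hyp : Hyp p q) {V W : Type} {G : SimpleGraph V} {G' : SimpleGraph W}
    (hs : ∀ v, HasStar p q G v) (h : TwoCyc p G) (h' : TwoCyc p G') (e : PC p G ≃ PC p G')
    (he : ∀ C, e (permA C) = permA (e C) ∧ e (permB C) = permB (e C) ∧
      e (permC h C) = permC h' (e C)) (C C' : PC p G) (h0 : C.1 0 = C'.1 0) :
    (e C).1 0 = (e C').1 0 := by
  obtain ⟨π, hπ, rfl⟩ := same_vertex hyp hs h C C' h0
  clear h0
  revert C
  induction hπ using Subgroup.closure_induction with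
  | mem x hx =>
    intro C
    rcases hx with rfl | hx
    · rw [(he C).2.1]
      change _ = (e C).1 (-0)
      rw [neg_zero]
    · rw [Set.mem_singleton_iff] at hx
      subst hx
      rw [(he C).2.2]
      exact (opC_spec h' (e C)).2.1.symm
  | one =>
    intro C
    rfl
  | mul x y _ _ hx hy =>
    intro C
    rw [hy C, hx (y C)]
    rfl
  | inv x _ hx =>
    intro C
    have h1 := hx (x⁻¹ C)
    have h2 : x (x⁻¹ C) = C := by
      rw [← Perm.mul_apply, mul_inv_cancel, Perm.one_apply]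
    rw [h2] at h1
    exact h1.symm

private theorem BackA_map (hyp : Hyp p q) {V W : Type} {G : SimpleGraph V} {G' : SimpleGraph W}
    (hs : ∀ v, HasStar p q G v) (h : TwoCyc p G) (h' : TwoCyc p G') (e : PC p G ≃ PC p G')
    (he : ∀ C, e (permA C) = permA (e C) ∧ e (permB C) = permB (e C) ∧
      e (permC h C) = permC h' (e C)) :
    ∃ f : V → W, (∀ C : PC p G, f (C.1 0) = (e C).1 0) ∧ ∀ v w, G.Adj v w → G'.Adj (f v) (f w) := by
  choose cy hcy using exists_pc hs
  have hf : ∀ C : PC p G, (e (cy (C.1 0))).1 0 = (e C).1 0 := fun C =>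
    tiso_vertex hyp hs h h' e he _ _ (hcy _)
  refine ⟨fun v => (e (cy v)).1 0, hf, ?_⟩
  intro v w hvw
  obtain ⟨C, rfl, rfl⟩ := exists_pc_edge hs v w hvw
  have h1 : C.1 1 = (permA C).1 0 := by
    change C.1 1 = C.1 (1 - 0)
    rw [sub_zero]
  have h2 : (e (cy (C.1 1))).1 0 = (e C).1 (0 + 1) := by
    rw [h1, hf, (he C).1]
    change (e C).1 (1 - 0) = _
    rw [sub_zero, zero_add]
  change G'.Adj ((e (cy (C.1 0))).1 0) ((e (cy (C.1 1))).1 0)
  rw [hf, h2]
  exact (e C).2.2 0

/-- isomorphic maps come from isomorphic graphs.  `f v := (e C) 0` for any cycle `C` with `C 0 = v`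
(`exists_pc`), well defined by `tiso_vertex`; the inverse is built in the same way from `e.symm`;
if `v ~ w` there is `C` with `C 0 = v`, `C 1 = w` (`exists_pc_edge`), `w = (a C) 0`, so
`f w = (e (a C)) 0 = (a (e C)) 0 = (e C) 1`, adjacent to `(e C) 0 = f v`; the same for the inverse. -/
theorem tiso_graphIso (hyp : Hyp p q) {V W : Type} {G : SimpleGraph V} {G' : SimpleGraph W}
    (hs : ∀ v, HasStar p q G v) (hs' : ∀ v, HasStar p q G' v) (h : TwoCyc p G)
    (h' : TwoCyc p G') (H : TIso (pcTrip h) (pcTrip h')) : Nonempty (G ≃g G') := by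
  obtain ⟨e, he⟩ := H
  have he' : ∀ C, e (permA C) = permA (e C) ∧ e (permB C) = permB (e C) ∧
      e (permC h C) = permC h' (e C) := he
  have hes : ∀ C, e.symm (permA C) = permA (e.symm C) ∧ e.symm (permB C) = permB (e.symm C) ∧
      e.symm (permC h' C) = permC h (e.symm C) := by
    intro C
    refine ⟨?_, ?_, ?_⟩
    · rw [Equiv.symm_apply_eq, (he' _).1, Equiv.apply_symm_apply]
    · rw [Equiv.symm_apply_eq, (he' _).2.1, Equiv.apply_symm_apply]
    · rw [Equiv.symm_apply_eq, (he' _).2.2, Equiv.apply_symm_apply]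
  obtain ⟨f, hf1, hf2⟩ := BackA_map hyp hs h h' e he'
  obtain ⟨g, hg1, hg2⟩ := BackA_map hyp hs' h' h e.symm hes
  have hfg : ∀ w, f (g w) = w := by
    intro w
    obtain ⟨C, rfl⟩ := exists_pc hs' w
    rw [hg1, hf1, Equiv.apply_symm_apply]
  have hgf : ∀ v, g (f v) = v := by
    intro v
    obtain ⟨C, rfl⟩ := exists_pc hs v
    rw [hf1, hg1, Equiv.symm_apply_apply]
  refine ⟨⟨⟨f, g, hgf, hfg⟩, ?_⟩⟩
  intro v w
  change G'.Adj (f v) (f w) ↔ G.Adj v w
  constructor
  · intro hvw
    have h1 := hg2 _ _ hvw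
    rwa [hgf, hgf] at h1
  · exact hf2 v w

end MPbcd198.D
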