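import Pool.Agent.Lib.MP_bcd198_co.Types

/-!
# MP_bcd198_co, Stream D (graphs and maps): definitions
-/

set_option autoImplicit false

namespace MPbcd198

open Equiv

/-- the base vertex of the tiling graph -/
def baseV (p q : ℕ) : Tri p q ⧸ vSub p q := ((1 : Tri p q) : Tri p q ⧸ vSub p q)

namespace D

/-! ## Flags and vertices of the tiling graph -/

/-- the vertex of the flag `x` of the tiling (the flags are the elements of the triangle group,
acting on themselves from the left) -/
def vt {p q : ℕ} (x : Tri p q) : Tri p q ⧸ vSub p q := ((x⁻¹ : Tri p q) : Tri p q ⧸ vSub p q)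

/-- `b` as an element of `⟨b,c⟩` -/
def vB (p q : ℕ) : vSub p q := ⟨gen p q 1, Subgroup.subset_closure (by simp)⟩

/-- `c` as an element of `⟨b,c⟩` -/
def vC (p q : ℕ) : vSub p q := ⟨gen p q 2, Subgroup.subset_closure (by simp)⟩

/-- the sequence of the vertices of the face of the flag `x` -/
def faceFun {p q : ℕ} (x : Tri p q) (i : ZMod p) : Tri p q ⧸ vSub p q :=
  vt ((gen p q 1 * gen p q 0) ^ i.val * x)

/-! ## Parametrised `p`-cycles of a graph -/

/-- `Om(G)`: the parametrised `p`-cycles of the graph `G` -/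
def PC (p : ℕ) {V : Type} (G : SimpleGraph V) : Type :=
  {C : ZMod p → V // Function.Injective C ∧ ∀ i, G.Adj (C i) (C (i + 1))}

section

variable {p : ℕ} {V : Type} {G : SimpleGraph V}

/-- `(a C)(i) = C(1 - i)` -/
def opA (C : PC p G) : PC p G :=
  ⟨fun i => C.1 (1 - i), fun i j h => by simpa using C.2.1 h, fun i => by
    have h := C.2.2 (-i)
    rw [show (-i + 1 : ZMod p) = 1 - i by ring] at h
    simpa [show (1 - (i + 1) : ZMod p) = -i by ring] using h.symm⟩

/-- `(b C)(i) = C(-i)` -/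
def opB (C : PC p G) : PC p G :=
  ⟨fun i => C.1 (-i), fun i j h => by simpa using C.2.1 h, fun i => by
    have h := C.2.2 (-(i + 1))
    rw [show (-(i + 1) + 1 : ZMod p) = -i by ring] at h
    simpa using h.symm⟩

@[simp] theorem opA_apply (C : PC p G) (i : ZMod p) : (opA C).1 i = C.1 (1 - i) := rfl

@[simp] theorem opB_apply (C : PC p G) (i : ZMod p) : (opB C).1 i = C.1 (-i) := rfl

theorem opA_opA (C : PC p G) : opA (opA C) = C := by
  apply Subtype.ext; funext i; simp

theorem opB_opB (C : PC p G) : opB (opB C) = C := by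
  apply Subtype.ext; funext i; simp

/-- for every parametrised `p`-cycle there is exactly one other one with the same first edge -/
def TwoCyc (p : ℕ) {V : Type} (G : SimpleGraph V) : Prop :=
  ∀ C : PC p G, ∃! C' : PC p G, C' ≠ C ∧ C'.1 0 = C.1 0 ∧ C'.1 1 = C.1 1

/-- `c C`: the other `p`-cycle with the same first edge -/
noncomputable def opC (h : TwoCyc p G) (C : PC p G) : PC p G := (h C).choose

theorem opC_spec (h : TwoCyc p G) (C : PC p G) :
    opC h C ≠ C ∧ (opC h C).1 0 = C.1 0 ∧ (opC h C).1 1 = C.1 1 := (h C).choose_spec.1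

theorem opC_unique (h : TwoCyc p G) (C C' : PC p G) (h1 : C' ≠ C) (h2 : C'.1 0 = C.1 0)
    (h3 : C'.1 1 = C.1 1) : C' = opC h C := (h C).choose_spec.2 C' ⟨h1, h2, h3⟩

theorem opC_opC (h : TwoCyc p G) (C : PC p G) : opC h (opC h C) = C := by
  obtain ⟨h1, h2, h3⟩ := opC_spec h C
  exact (opC_unique h (opC h C) C h1.symm h2.symm h3.symm).symm

/-- the permutation `a` of `Om(G)` -/
def permA : Perm (PC p G) := Function.Involutive.toPerm opA opA_opA

/-- the permutation `b` of `Om(G)` -/
def permB : Perm (PC p G) := Function.Involutive.toPerm opB opB_opB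

/-- the permutation `c` of `Om(G)` -/
noncomputable def permC (h : TwoCyc p G) : Perm (PC p G) :=
  Function.Involutive.toPerm (opC h) (opC_opC h)

/-- `Om(G)` with its three involutions -/
noncomputable def pcTrip (h : TwoCyc p G) : Trip (PC p G) := (permA, permB, permC h)

end

/-- the star of the vertex `v`: the parametrised `p`-cycles starting at `v` are parametrised by
`⟨b,c⟩`, compatibly with `b`, and two of them have the same first edge iff they are equal or
exchanged by `c`; every edge at `v` occurs. -/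
def HasStar (p q : ℕ) {V : Type} (G : SimpleGraph V) (v : V) : Prop :=
  ∃ E : vSub p q ≃ {C : PC p G // C.1 0 = v},
    (∀ g, (E (vB p q * g)).1 = opB (E g).1) ∧
    (∀ g g', (E g).1.1 1 = (E g').1.1 1 ↔ (g' = g ∨ g' = vC p q * g)) ∧
    ∀ w, G.Adj v w → ∃ g, (E g).1.1 1 = w

/-! ## Isomorphism of triples -/

/-- isomorphism of triples of permutations -/
def TIso {X Y : Type} (M : Trip X) (N : Trip Y) : Prop :=
  ∃ e : X ≃ Y, ∀ x, e (M.1 x) = N.1 (e x) ∧ e (M.2.1 x) = N.2.1 (e x) ∧ e (M.2.2 x) = N.2.2 (e x)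

/-! ## The graph of a map -/

section

variable {p q : ℕ} {X : Type}

/-- `x`, `y` are in the same `⟨b,c⟩`-orbit -/
def orbS (ρ : Tri p q →* Perm X) : Setoid X where
  r x y := ∃ g ∈ vSub p q, ρ g x = y
  iseqv := ⟨fun x => ⟨1, one_mem _, by simp⟩,
    fun {x y} ⟨g, hg, h⟩ => ⟨g⁻¹, inv_mem hg, by rw [← h, map_inv]; simp⟩,
    fun {x y z} ⟨g, hg, h⟩ ⟨k, hk, h'⟩ => ⟨k * g, mul_mem hk hg, by rw [map_mul, Perm.mul_apply, h, h']⟩⟩

/-- the vertex of the flag `x` of the map -/
def vtM (ρ : Tri p q →* Perm X) (x : X) : Quotient (orbS ρ) := Quotient.mk (orbS ρ) x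

/-- the graph of a map: the vertices are the `⟨b,c⟩`-orbits -/
def mapGraph (ρ : Tri p q →* Perm X) : SimpleGraph (Quotient (orbS ρ)) where
  Adj v w := v ≠ w ∧ ∃ x, v = vtM ρ x ∧ w = vtM ρ (ρ (gen p q 0) x)
  symm := ⟨by
    rintro v w ⟨hne, x, hx, hy⟩
    refine ⟨hne.symm, ρ (gen p q 0) x, hy, ?_⟩
    have h2 : gen p q 0 * gen p q 0 = 1 := by
      have : (PresentedGroup.mk (triRels p q)) (FreeGroup.of 0 ^ 2) = 1 :=
        PresentedGroup.one_of_mem (by simp [triRels])
      simpa [pow_two, gen, PresentedGroup.of] using this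
    rw [← Perm.mul_apply, ← map_mul, h2, map_one, Perm.one_apply, hx]⟩
  loopless := ⟨fun x h => h.1 rfl⟩

/-- the map on vertices induced by `g ↦ ρ g x` -/
def thV (ρ : Tri p q →* Perm X) (x : X) : (Tri p q ⧸ vSub p q) → Quotient (orbS ρ) :=
  Quotient.lift (fun h : Tri p q => vtM ρ (ρ h⁻¹ x)) (by
    intro h h' hh
    have h1 : h⁻¹ * h' ∈ vSub p q := QuotientGroup.leftRel_apply.mp hh
    refine Quotient.sound ⟨h'⁻¹ * h, ?_, ?_⟩
    · have := inv_mem h1
      simpa using this
    · rw [← Perm.mul_apply, ← map_mul]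
      simp)

/-- the sequence of the vertices of the face of the flag `y` of a map -/
def faceM (ρ : Tri p q →* Perm X) (y : X) (i : ZMod p) : Quotient (orbS ρ) :=
  vtM ρ (ρ ((gen p q 1 * gen p q 0) ^ i.val) y)

end

/-- the length bound -/
def lB (q r : ℕ) : ℕ := 2 * ((r + 1) * (2 * q + 1)) + 4 * q + 1

end D

end MPbcd198
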