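import Pool.Agent.Lib.MP_bcd198_co.D.Defs

/-!
# MP_bcd198_co, Stream D, job DistA: `p`-cycles and links
-/

set_option autoImplicit false

namespace MPbcd198.D

open Equiv

/-- the `k`-th vertex of a parametrised cycle is at distance at most `k` from the vertex number 0
(induction on `k`, `SimpleGraph.edist_triangle`, adjacent vertices have `edist ≤ 1`) -/
theorem edist_nat {p : ℕ} {V : Type} {G : SimpleGraph V} (C : PC p G) (k : ℕ) :
    G.edist (C.1 0) (C.1 (k : ZMod p)) ≤ (k : ℕ∞) := by
  induction k with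
  | zero => simp
  | succ k ih =>
    refine (SimpleGraph.edist_triangle (v := C.1 (k : ZMod p))).trans ?_
    have h1 : G.edist (C.1 (k : ZMod p)) (C.1 ((k : ZMod p) + 1)) ≤ 1 :=
      (SimpleGraph.edist_eq_one_iff_adj.mpr (C.2.2 (k : ZMod p))).le
    push_cast
    exact add_le_add ih h1

/-- if `p ≤ 2r+1` every vertex of a parametrised `p`-cycle is at distance at most `r` from the
vertex number 0: `edist_nat` for `C` if `i.val ≤ r` and for `opB C` (`k = p - i.val ≤ r`)
otherwise. -/
theorem edist_pc {p : ℕ} {V : Type} {G : SimpleGraph V} (C : PC p G) (r : ℕ) (hp : p ≠ 0)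
    (hr : p ≤ 2 * r + 1) (i : ZMod p) : G.edist (C.1 0) (C.1 i) ≤ (r : ℕ∞) := by
  have : NeZero p := ⟨hp⟩
  have hi := ZMod.val_lt i
  by_cases h : i.val ≤ r
  · have h1 := edist_nat C i.val
    rw [ZMod.natCast_zmod_val] at h1
    exact h1.trans (by exact_mod_cast h)
  · have h1 := edist_nat (opB C) (p - i.val)
    have h2 : ((p - i.val : ℕ) : ZMod p) = -i := by
      rw [Nat.cast_sub hi.le, ZMod.natCast_self, ZMod.natCast_zmod_val, zero_sub]
    rw [h2, opB_apply, opB_apply, neg_zero, neg_neg] at h1
    refine h1.trans ?_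
    have h3 : p - i.val ≤ r := by omega
    exact_mod_cast h3

end MPbcd198.D
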