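import Pool.Agent.Lib.MP_bcd198_co.D.DistA

/-!
# MP_bcd198_co, Stream D, job DistB: `p`-cycles and links
-/

set_option autoImplicit false

namespace MPbcd198.D

open Equiv

theorem DistB_mem {p : ℕ} {W : Type} {F : SimpleGraph W} {r : ℕ}
    (hp : p ≠ 0) (hr : p ≤ 2 * r + 1) {u : W} (C : {C : PC p F // C.1 0 = u}) (i : ZMod p) :
    F.edist u (C.1.1 i) ≤ (r : ℕ∞) := by
  have h := edist_pc C.1 r hp hr i
  rwa [C.2] at h

/-- the transport of a `p`-cycle -/
def DistB_tr {p : ℕ} {V W : Type} {G : SimpleGraph V} {F : SimpleGraph W} {r : ℕ}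
    (hp : p ≠ 0) (hr : p ≤ 2 * r + 1) (u : W) (v : V) (φ : link r F u ≃g link r G v)
    (hφ : φ (linkCentre r F u) = linkCentre r G v) (C : {C : PC p F // C.1 0 = u}) :
    {C : PC p G // C.1 0 = v} :=
  ⟨⟨fun i => (φ ⟨C.1.1 i, DistB_mem hp hr C i⟩).1,
    fun i j h => C.1.2.1 (congrArg Subtype.val (φ.injective (Subtype.ext h))),
    fun i => (φ.map_adj_iff (v := ⟨C.1.1 i, DistB_mem hp hr C i⟩)
      (w := ⟨C.1.1 (i + 1), DistB_mem hp hr C (i + 1)⟩)).mpr (C.1.2.2 i)⟩, by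
    have h : (⟨C.1.1 0, DistB_mem hp hr C 0⟩ : {w : W // F.edist u w ≤ (r : ℕ∞)}) =
        linkCentre r F u := Subtype.ext C.2
    show (φ ⟨C.1.1 0, DistB_mem hp hr C 0⟩).1 = v
    rw [h, hφ]
    rfl⟩

theorem DistB_tr_apply {p : ℕ} {V W : Type} {G : SimpleGraph V} {F : SimpleGraph W} {r : ℕ}
    (hp : p ≠ 0) (hr : p ≤ 2 * r + 1) (u : W) (v : V) (φ : link r F u ≃g link r G v)
    (hφ : φ (linkCentre r F u) = linkCentre r G v) (C : {C : PC p F // C.1 0 = u}) (i : ZMod p) :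
    (DistB_tr hp hr u v φ hφ C).1.1 i = (φ ⟨C.1.1 i, DistB_mem hp hr C i⟩).1 := rfl

/-- Transport of parametrised `p`-cycles by an isomorphism of links.  `(T C) i = φ (C i)`.
The inverse is the same construction for `φ.symm`.  Adjacency in `link` is adjacency in the graph
(`link r G v = G.comap Subtype.val`, `Iff.rfl`). -/
theorem link_transfer {p : ℕ} {V W : Type} {G : SimpleGraph V} {F : SimpleGraph W} {r : ℕ}
    (hp : p ≠ 0) (hr : p ≤ 2 * r + 1) (u : W) (v : V) (φ : link r F u ≃g link r G v)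
    (hφ : φ (linkCentre r F u) = linkCentre r G v) :
    ∃ T : {C : PC p F // C.1 0 = u} ≃ {C : PC p G // C.1 0 = v},
      ∀ (C : {C : PC p F // C.1 0 = u}) (i : ZMod p) (h : F.edist u (C.1.1 i) ≤ (r : ℕ∞)),
        (T C).1.1 i = (φ ⟨C.1.1 i, h⟩).1 := by
  have hφ' : φ.symm (linkCentre r G v) = linkCentre r F u := by
    rw [← hφ]
    exact φ.symm_apply_apply _
  refine ⟨⟨DistB_tr hp hr u v φ hφ, DistB_tr hp hr v u φ.symm hφ', fun C => ?_, fun C => ?_⟩,
    fun C i h => rfl⟩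
  · apply Subtype.ext
    apply Subtype.ext
    funext i
    rw [DistB_tr_apply]
    have h : (⟨(DistB_tr hp hr u v φ hφ C).1.1 i, DistB_mem hp hr _ i⟩ :
        {w : V // G.edist v w ≤ (r : ℕ∞)}) = φ ⟨C.1.1 i, DistB_mem hp hr C i⟩ := Subtype.ext rfl
    rw [h]
    exact congrArg Subtype.val (φ.symm_apply_apply _)
  · apply Subtype.ext
    apply Subtype.ext
    funext i
    rw [DistB_tr_apply]
    have h : (⟨(DistB_tr hp hr v u φ.symm hφ' C).1.1 i, DistB_mem hp hr _ i⟩ :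
        {w : W // F.edist u w ≤ (r : ℕ∞)}) = φ.symm ⟨C.1.1 i, DistB_mem hp hr C i⟩ :=
      Subtype.ext rfl
    rw [h]
    exact congrArg Subtype.val (φ.apply_symm_apply _)

end MPbcd198.D
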