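import Pool.Agent.Lib.MP_bcd198_co.D.DistB

/-!
# MP_bcd198_co, Stream D, job DistC: `p`-cycles and links
-/

set_option autoImplicit false

namespace MPbcd198.D

open Equiv

/-- the star is transported by an isomorphism of links: compose the equivalence `E` with `T` of
`link_transfer`.  The clause for `b`: `(T (opB C)) i = φ (C (-i)) = (T C) (-i)`
(`opB` preserves the condition `C 0 = u`).  The clause for `c`: `φ` is injective.  Neighbours:
if `G.Adj v w` then `w` is in the link (`1 ≤ r` since `3 ≤ p ≤ 2r+1`), `w = φ w'` with `w'`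
adjacent to `u`. -/
theorem star_transfer {p q : ℕ} {V W : Type} {G : SimpleGraph V} {F : SimpleGraph W} {r : ℕ}
    (hp : 3 ≤ p) (hr : p ≤ 2 * r + 1) (u : W) (hs : HasStar p q F u) (v : V)
    (h : ∃ φ : link r F u ≃g link r G v, φ (linkCentre r F u) = linkCentre r G v) :
    HasStar p q G v := by
  obtain ⟨E, h1, h2, h3⟩ := hs
  obtain ⟨φ, hφ⟩ := h
  have hp0 : p ≠ 0 := by omega
  obtain ⟨T, hT⟩ := link_transfer hp0 hr u v φ hφ
  have hT' : ∀ (C : {C : PC p F // C.1 0 = u}) (i : ZMod p),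
      (T C).1.1 i = (φ ⟨C.1.1 i, DistB_mem hp0 hr C i⟩).1 := fun C i => hT C i _
  refine ⟨E.trans T, fun g => ?_, fun g g' => ?_, fun w hw => ?_⟩
  · apply Subtype.ext
    funext i
    rw [opB_apply, Equiv.trans_apply, Equiv.trans_apply, hT', hT']
    have h4 : (E (vB p q * g)).1.1 i = (E g).1.1 (-i) := by rw [h1]; rfl
    congr 2
    exact Subtype.ext h4
  · rw [← h2, Equiv.trans_apply, Equiv.trans_apply, hT', hT']
    constructor
    · intro h4
      exact congrArg Subtype.val (φ.injective (Subtype.ext h4))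
    · intro h4
      congr 2
      exact Subtype.ext h4
  · have hr1 : 1 ≤ r := by omega
    have h4 : G.edist v w ≤ (r : ℕ∞) := by
      rw [SimpleGraph.edist_eq_one_iff_adj.mpr hw]
      exact_mod_cast hr1
    obtain ⟨w', hw'⟩ : ∃ w', φ w' = ⟨w, h4⟩ := ⟨φ.symm ⟨w, h4⟩, φ.apply_symm_apply _⟩
    have h5 : (link r G v).Adj (φ (linkCentre r F u)) (φ w') := by
      rw [hφ, hw']
      exact hw
    have h6 : F.Adj u w'.1 := φ.map_adj_iff.mp h5
    obtain ⟨g, hg⟩ := h3 _ h6
    refine ⟨g, ?_⟩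
    rw [Equiv.trans_apply, hT']
    have h7 : (⟨(E g).1.1 1, DistB_mem hp0 hr (E g) 1⟩ : {w : W // F.edist u w ≤ (r : ℕ∞)}) = w' :=
      Subtype.ext hg
    rw [h7, hw']

end MPbcd198.D
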