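import Pool.Agent.Lib.MP_bcd198_co.D.Tri

/-!
# MP_bcd198_co, Stream D, job FlagA: edges and faces of the tiling graph

Notation: `A = gen p q 0`, `B = gen p q 1`, `C = gen p q 2`.  Everything follows from the
interface theorem `polygon` (IfG.lean) for suitable closed sequences of flags.
-/

set_option autoImplicit false

namespace MPbcd198.D

open Equiv

variable {p q : ℕ}

/-- The tiling graph has no loops: if `vt (A x) = vt x` then `x = g (A x)` with `g ∈ ⟨b,c⟩`, so the
constant sequence `x` satisfies the hypotheses of `polygon` with `n = 1`
(`x (i+1) = x = g * A * x`), which gives `p ≤ 1`, contradiction with `3 ≤ p`. -/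
theorem vt_ne (hyp : Hyp p q) (x : Tri p q) : vt x ≠ vt (gen p q 0 * x) := by
  intro h
  obtain ⟨g, hg, h'⟩ := (vt_eq_iff _ _).1 h.symm
  have h1 := (polygon hyp 1 one_pos (fun _ => x) (fun _ => rfl)
    (fun _ => ⟨g, hg, by rw [mul_assoc]; exact h'⟩)
    (fun i hi j hj hij => by omega) (fun h => by omega)).1
  have := hyp.hp
  omega

/-- the flags of a given directed edge are `x` and `C x`.
If `y ≠ x` and `y ≠ C x`: apply `polygon` with `n = 2` to the sequence `x 0 = x`, `x 1 = A y`
(period 2): `A y = g A x` with `g ∈ ⟨b,c⟩` since `vt (A x) = vt (A y)`;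
`x = g' y = g' A (A y)` since `vt x = vt y`; the two vertices are distinct by `vt_ne`
(`vt (A y) = vt (A x) ≠ vt x`); `two`: `A y ≠ A x` since `y ≠ x`, and `A y = C A x = A C x` would
give `y = C x`.  So `p ≤ 2`, contradiction. -/
theorem edge_flags (hyp : Hyp p q) (x y : Tri p q) (h1 : vt x = vt y)
    (h2 : vt (gen p q 0 * x) = vt (gen p q 0 * y)) : y = x ∨ y = gen p q 2 * x := by
  by_contra hcon
  push Not at hcon
  obtain ⟨hne1, hne2⟩ := hcon
  obtain ⟨g, hg, hg'⟩ := (vt_eq_iff _ _).1 h2
  obtain ⟨k, hk, hk'⟩ := (vt_eq_iff _ _).1 h1.symm
  have hA : ∀ z : Tri p q, gen p q 0 * (gen p q 0 * z) = z := fun z => by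
    rw [← mul_assoc, gen_sq, one_mul]
  have h3 := (polygon hyp 2 two_pos (fun i => if Even i then x else gen p q 0 * y)
    (fun i => by
      have : Even (i + 2) ↔ Even i := by simp [Nat.even_add]
      simp only [this])
    (fun i => by
      by_cases hi : Even i
      · have hi' : ¬ Even (i + 1) := by simpa [Nat.even_add_one] using hi
        refine ⟨g, hg, ?_⟩
        simp only [hi, hi', if_true, if_false]
        rw [mul_assoc]
        exact hg'
      · have hi' : Even (i + 1) := by simpa [Nat.even_add_one] using hi
        refine ⟨k, hk, ?_⟩
        simp only [hi, hi', if_true, if_false]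
        rw [mul_assoc, hA]
        exact hk')
    (fun i hi j hj hij g' hg' he => by
      have hv : vt (if Even i then x else gen p q 0 * y) =
          vt (if Even j then x else gen p q 0 * y) := (vt_eq_iff _ _).2 ⟨g', hg', he⟩
      have hcase : (i = 0 ∧ j = 1) ∨ (i = 1 ∧ j = 0) := by omega
      rcases hcase with ⟨rfl, rfl⟩ | ⟨rfl, rfl⟩
      · have h0 : Even 0 := by decide
        have h1' : ¬ Even 1 := by decide
        simp only [h0, h1', if_true, if_false] at hv
        exact vt_ne hyp y (h1.symm.trans hv)
      · have h0 : Even 0 := by decide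
        have h1' : ¬ Even 1 := by decide
        simp only [h0, h1', if_true, if_false] at hv
        exact vt_ne hyp y (h1.symm.trans hv.symm))
    (fun _ => by
      have h0 : Even 0 := by decide
      have h1' : ¬ Even 1 := by decide
      simp only [h0, h1', if_true, if_false]
      refine ⟨fun h => hne1 (mul_left_cancel h), fun h => hne2 ?_⟩
      rw [← ac_comm, mul_assoc] at h
      exact mul_left_cancel h)).1
  have := hyp.hp
  omega

/-- The vertices of a face are distinct.  Otherwise take `i < j < p` with
`vt ((BA)^i x) = vt ((BA)^j x)` and `j - i` minimal, `n = j - i`, and apply `polygon` to the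
`n`-periodic sequence `k ↦ (BA)^(i + k % n) x`: the steps are `B A = g A` with `g = B ∈ ⟨b,c⟩`, and
for the last step `(BA)^i x = g (BA)^j x = (g B) A (BA)^(j-1) x`; distinct vertices by minimality;
`two`: if `n = 2`, `B A y ≠ A y` since `B ≠ 1` (`self_map`, `pb`), and `B A y ≠ C A y` since `B = C`
would give `BC = 1`, minimal period `1 ≠ q`.  So `p ≤ n < p`. -/
theorem face_inj (hyp : Hyp p q) (x : Tri p q) : Function.Injective (faceFun x) := by
  classical
  have hp := hyp.hp
  have hq := hyp.hq
  set w : Tri p q := gen p q 1 * gen p q 0 with hw
  have hB : gen p q 1 ∈ vSub p q := Subgroup.subset_closure (by simp)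
  -- no coincidences
  have key : ∀ n : ℕ, 0 < n → ∀ i, i + n < p → vt (w ^ i * x) ≠ vt (w ^ (i + n) * x) := by
    intro n
    induction n using Nat.strong_induction_on with
    | _ n ih =>
      intro hn i hi he
      obtain ⟨y, hy⟩ : ∃ y, y = w ^ i * x := ⟨_, rfl⟩
      have hyk : ∀ k, w ^ (i + k) * x = w ^ k * y := fun k => by
        rw [hy, ← mul_assoc, ← pow_add, add_comm]
      obtain ⟨g₀, hg₀, hg₀'⟩ := (vt_eq_iff _ _).1 he.symm
      rw [hyk, ← hy] at hg₀'
      have hpol := (polygon hyp n hn (fun k => w ^ (k % n) * y)
        (fun k => by simp only [Nat.add_mod_right])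
        (fun k => by
          by_cases hk : k % n + 1 < n
          · refine ⟨gen p q 1, hB, ?_⟩
            have h1 : (k + 1) % n = k % n + 1 := by
              rw [Nat.add_mod, Nat.mod_eq_of_lt (a := 1) (by omega), Nat.mod_eq_of_lt hk]
            simp only [h1]
            rw [pow_succ', hw]
            simp only [mul_assoc]
          · have h0 : k % n < n := Nat.mod_lt _ hn
            have h2 : k % n = n - 1 := by omega
            have h1 : (k + 1) % n = 0 := by
              rcases Nat.lt_or_ge 1 n with h | h
              · rw [Nat.add_mod, Nat.mod_eq_of_lt (a := 1) h, h2, Nat.sub_add_cancel hn,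
                  Nat.mod_self]
              · have : n = 1 := by omega
                subst this
                exact Nat.mod_one _
            refine ⟨g₀ * gen p q 1, mul_mem hg₀ hB, ?_⟩
            simp only [h1, h2, pow_zero, one_mul]
            have h3 : w ^ n * y = w * (w ^ (n - 1) * y) := by
              rw [← mul_assoc, ← pow_succ', Nat.sub_add_cancel hn]
            rw [h3, hw] at hg₀'
            rw [hw]
            simp only [mul_assoc] at hg₀' ⊢
            exact hg₀')
        (fun a ha b hb hab g hg hgab => by
          have hv : vt (w ^ (a % n) * y) = vt (w ^ (b % n) * y) :=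
            (vt_eq_iff _ _).2 ⟨g, hg, hgab⟩
          rw [Nat.mod_eq_of_lt ha, Nat.mod_eq_of_lt hb] at hv
          rcases Nat.lt_or_gt_of_ne hab with h | h
          · refine ih (b - a) (by omega) (by omega) (i + a) (by omega) ?_
            rw [hyk, show i + a + (b - a) = i + b by omega, hyk]
            exact hv
          · refine ih (a - b) (by omega) (by omega) (i + b) (by omega) ?_
            rw [hyk, show i + b + (a - b) = i + a by omega, hyk]
            exact hv.symm)
        (fun hn2 => by
          subst hn2
          have h1 : (1 : ℕ) % 2 = 1 := rfl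
          have h0 : (0 : ℕ) % 2 = 0 := rfl
          simp only [h1, h0, pow_zero, one_mul, pow_one]
          have hs := self_map hyp
          rw [hw]
          constructor
          · intro h
            have h3 : gen p q 1 = 1 := by
              have h4 : gen p q 1 * (gen p q 0 * y) = 1 * (gen p q 0 * y) := by
                rw [one_mul, ← mul_assoc]; exact h
              exact mul_right_cancel h4
            refine (hs.pb 1).1 ?_
            change gen p q 1 * 1 = 1
            rw [h3, one_mul]
          · intro h
            have h3 : gen p q 1 = gen p q 2 := by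
              have h4 : gen p q 1 * (gen p q 0 * y) = gen p q 2 * (gen p q 0 * y) := by
                rw [← mul_assoc, ← mul_assoc]; exact h
              exact mul_right_cancel h4
            have h5 : selfHom p q (gen p q 1) * selfHom p q (gen p q 2) = 1 := by
              rw [← map_mul, h3, gen_sq, map_one]
            have h6 := hs.bc 1
            rw [h5] at h6
            have h7 : Function.minimalPeriod (⇑(1 : Perm (Tri p q))) 1 = 1 :=
              Function.minimalPeriod_eq_one_iff_isFixedPt.2 rfl
            omega)).1
      omega
  have : NeZero p := ⟨by omega⟩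
  intro i j hij
  by_contra hne
  have hv : i.val ≠ j.val := fun h => hne (ZMod.val_injective p h)
  have hi := ZMod.val_lt i
  have hj := ZMod.val_lt j
  unfold faceFun at hij
  rcases Nat.lt_or_gt_of_ne hv with h | h
  · refine key (j.val - i.val) (by omega) i.val (by omega) ?_
    rw [show i.val + (j.val - i.val) = j.val by omega]
    exact hij
  · refine key (i.val - j.val) (by omega) j.val (by omega) ?_
    rw [show j.val + (i.val - j.val) = i.val by omega]
    exact hij.symm

end MPbcd198.D
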