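import Pool.Agent.Lib.MP_bcd198_co.D.FlagA

/-!
# MP_bcd198_co, Stream D, job FlagB: edges and faces of the tiling graph

Notation: `A = gen p q 0`, `B = gen p q 1`, `C = gen p q 2`.  Everything follows from the
interface theorem `polygon` (IfG.lean) for suitable closed sequences of flags.
-/

set_option autoImplicit false

namespace MPbcd198.D

open Equiv

variable {p q : ℕ}

/-- consecutive vertices of a face are adjacent: `vt ((BA)^(i+1) x) = vt (B A y) = vt (A y)` for
`y = (BA)^i x` (use `ba_val` for the wrap-around), `adj_iff`, `vt_ne`. -/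
theorem face_adj (hyp : Hyp p q) (x : Tri p q) (i : ZMod p) :
    (tilingGraph p q).Adj (faceFun x i) (faceFun x (i + 1)) := by
  have hp := hyp.hp
  have hB : gen p q 1 ∈ vSub p q := Subgroup.subset_closure (by simp)
  have : NeZero p := ⟨by omega⟩
  have h1 : faceFun x (i + 1) = vt (gen p q 0 * ((gen p q 1 * gen p q 0) ^ i.val * x)) := by
    unfold faceFun
    have h2 := ba_val (p := p) (q := q) (by omega) (i + 1) ((i.val : ℤ) + 1) (by simp)
    rw [h2, zpow_add_one, zpow_natCast, ← zpow_natCast, ← zpow_add_one, zpow_add_one,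
      ← zpow_add_one, add_comm, zpow_one_add, zpow_natCast, mul_assoc, mul_assoc,
      vt_mul_left _ _ hB]
  rw [h1, adj_iff]
  exact ⟨vt_ne hyp _, _, rfl, rfl⟩

/-- the face of the flag `x` as a parametrised `p`-cycle of the tiling graph -/
def faceF (hyp : Hyp p q) (x : Tri p q) : PC p (tilingGraph p q) :=
  ⟨faceFun x, face_inj hyp x, face_adj hyp x⟩

theorem faceF_zero (hyp : Hyp p q) (x : Tri p q) : (faceF hyp x).1 0 = vt x := by
  change faceFun x 0 = vt x
  unfold faceFun
  rw [ZMod.val_zero, pow_zero, one_mul]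

theorem faceF_one (hyp : Hyp p q) (x : Tri p q) : (faceF hyp x).1 1 = vt (gen p q 0 * x) := by
  have hp := hyp.hp
  have hB : gen p q 1 ∈ vSub p q := Subgroup.subset_closure (by simp)
  change faceFun x 1 = _
  unfold faceFun
  have : Fact (1 < p) := ⟨by omega⟩
  rw [ZMod.val_one, pow_one, mul_assoc, vt_mul_left _ _ hB]

/-- `vt ((BA)^i B x) = vt (B (AB)^i x) = vt ((BA)^(-i) x)` -/
theorem faceF_B (hyp : Hyp p q) (x : Tri p q) :
    faceF hyp (gen p q 1 * x) = opB (faceF hyp x) := by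
  have hp := hyp.hp
  have : NeZero p := ⟨by omega⟩
  have hB : gen p q 1 ∈ vSub p q := Subgroup.subset_closure (by simp)
  apply Subtype.ext
  funext i
  change faceFun (gen p q 1 * x) i = faceFun x (-i)
  unfold faceFun
  rw [ba_val (p := p) (q := q) (by omega) i (i.val : ℤ) (by simp),
    ba_val (p := p) (q := q) (by omega) (-i) (-(i.val : ℤ)) (by simp)]
  have h1 : gen p q 1 * (gen p q 1 * gen p q 0) * (gen p q 1)⁻¹ = (gen p q 1 * gen p q 0)⁻¹ := by
    rw [mul_inv_rev, gen_inv, gen_inv, ← mul_assoc, gen_sq, one_mul]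
  have h2 : gen p q 1 * (gen p q 1 * gen p q 0) ^ (i.val : ℤ) * (gen p q 1)⁻¹ =
      (gen p q 1 * gen p q 0) ^ (-(i.val : ℤ)) := by
    rw [← conj_zpow, h1, inv_zpow, zpow_neg]
  rw [← vt_mul_left (gen p q 1) _ hB, ← h2, gen_inv]
  simp only [mul_assoc]

/-- `vt ((BA)^i A x) = vt ((BA)^(i-1) B x) = vt ((BA)^(1-i) x)` -/
theorem faceF_A (hyp : Hyp p q) (x : Tri p q) :
    faceF hyp (gen p q 0 * x) = opA (faceF hyp x) := by
  have hp := hyp.hp
  have : NeZero p := ⟨by omega⟩
  have hB : gen p q 1 ∈ vSub p q := Subgroup.subset_closure (by simp)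
  apply Subtype.ext
  funext i
  change faceFun (gen p q 0 * x) i = faceFun x (1 - i)
  unfold faceFun
  rw [ba_val (p := p) (q := q) (by omega) i (i.val : ℤ) (by simp),
    ba_val (p := p) (q := q) (by omega) (1 - i) (1 - (i.val : ℤ)) (by simp)]
  have h1 : gen p q 1 * (gen p q 1 * gen p q 0) * (gen p q 1)⁻¹ = (gen p q 1 * gen p q 0)⁻¹ := by
    rw [mul_inv_rev, gen_inv, gen_inv, ← mul_assoc, gen_sq, one_mul]
  have h2 : gen p q 1 * (gen p q 1 * gen p q 0) ^ ((i.val : ℤ) - 1) * (gen p q 1)⁻¹ =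
      (gen p q 1 * gen p q 0) ^ (1 - (i.val : ℤ)) := by
    rw [← conj_zpow, h1, inv_zpow, ← zpow_neg]
    congr 1
    ring
  have h3 : (gen p q 1 * gen p q 0) ^ (i.val : ℤ) * (gen p q 0 * x) =
      (gen p q 1 * gen p q 0) ^ ((i.val : ℤ) - 1) * (gen p q 1 * x) := by
    have h4 : (i.val : ℤ) = ((i.val : ℤ) - 1) + 1 := by ring
    conv_lhs => rw [h4]
    rw [zpow_add_one, mul_assoc, mul_assoc, ← mul_assoc (gen p q 0), gen_sq, one_mul]
  rw [h3, ← vt_mul_left (gen p q 1) _ hB, ← h2, gen_inv]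
  simp only [mul_assoc]

end MPbcd198.D
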