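import Pool.Agent.Lib.MP_bcd198_co.D.FlagB

/-!
# MP_bcd198_co, Stream D, job FlagC: edges and faces of the tiling graph

Notation: `A = gen p q 0`, `B = gen p q 1`, `C = gen p q 2`.  Everything follows from the
interface theorem `polygon` (IfG.lean) for suitable closed sequences of flags.
-/

set_option autoImplicit false

namespace MPbcd198.D

open Equiv

variable {p q : ℕ}

/-- injectivity = `face_unique` of IfG.lean (with `vt_eq_iff`; every natural `i` reduces to
`i % p` by `ba_pow`). -/
theorem faceF_injective (hyp : Hyp p q) : Function.Injective (faceF hyp) := by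
  intro x y hxy
  have hp0 : p ≠ 0 := by
    have := hyp.hp
    omega
  apply face_unique hyp x y
  intro i
  have h1 : (faceF hyp x).1 (i : ZMod p) = (faceF hyp y).1 (i : ZMod p) := by rw [hxy]
  have h2 : (gen p q 1 * gen p q 0) ^ ((i : ZMod p)).val = (gen p q 1 * gen p q 0) ^ i := by
    rw [ba_val hp0 (i : ZMod p) (i : ℤ) (by simp), zpow_natCast]
  change vt ((gen p q 1 * gen p q 0) ^ ((i : ZMod p)).val * x) =
    vt ((gen p q 1 * gen p q 0) ^ ((i : ZMod p)).val * y) at h1
  rw [h2, vt_eq_iff] at h1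
  exact h1

/-- surjectivity: given a parametrised `p`-cycle `C` choose (`adj_iff`) for every `i : ZMod p` a
flag `z i` with `vt (z i) = C i` and `vt (A (z i)) = C (i+1)`, and apply `polygon` with `n = p` to
`i ↦ z (i : ZMod p)`: since `vt (z (i+1)) = vt (A (z i))`, `z (i+1) = g A (z i)` with
`g ∈ ⟨b,c⟩`; distinct vertices since `C` is injective; `two` is empty since `p ≥ 3`.  The `y` of
`polygon` satisfies `y i = (BA)^i (y 0)` and `vt (y i) = vt (z i) = C i`, so
`C = faceF (y 0)`. -/
theorem faceF_surjective (hyp : Hyp p q) : Function.Surjective (faceF hyp) := by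
  intro C
  have hp := hyp.hp
  have hp0 : p ≠ 0 := by omega
  have hz : ∀ i : ZMod p, ∃ x : Tri p q, C.1 i = vt x ∧ C.1 (i + 1) = vt (gen p q 0 * x) := by
    intro i
    exact ((adj_iff _ _).1 (C.2.2 i)).2
  choose z hz1 hz2 using hz
  have hpoly := polygon hyp p (by omega) (fun i : ℕ => z (i : ZMod p)) (fun i => by simp)
    (fun i => by
      have h1 : vt (gen p q 0 * z (i : ZMod p)) = vt (z ((i + 1 : ℕ) : ZMod p)) := by
        rw [← hz2, ← hz1]
        push_cast
        rfl
      obtain ⟨g, hg, h2⟩ := (vt_eq_iff _ _).1 h1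
      exact ⟨g, hg, by rw [h2, mul_assoc]⟩)
    (fun i hi j hj hij g hg h1 => by
      have h2 : vt (z (i : ZMod p)) = vt (z (j : ZMod p)) := (vt_eq_iff _ _).2 ⟨g, hg, h1⟩
      rw [← hz1, ← hz1] at h2
      have h3 := C.2.1 h2
      apply hij
      rw [ZMod.natCast_eq_natCast_iff'] at h3
      rwa [Nat.mod_eq_of_lt hi, Nat.mod_eq_of_lt hj] at h3)
    (fun h => by omega)
  obtain ⟨y, hy1, hy2⟩ := hpoly.2 rfl
  refine ⟨y 0, ?_⟩
  have hy3 : ∀ i : ℕ, (gen p q 1 * gen p q 0) ^ i * y 0 = y i := by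
    intro i
    induction i with
    | zero => simp
    | succ i ih => rw [pow_succ', mul_assoc, ih, hy2]
  have hc : gen p q 2 ∈ vSub p q := Subgroup.subset_closure (by simp)
  have hy4 : ∀ i : ℕ, vt (y i) = C.1 (i : ZMod p) := by
    intro i
    rw [hz1]
    rcases hy1 i with h | h
    · rw [h]
    · rw [h, vt_mul_left _ _ hc]
  apply Subtype.ext
  funext i
  change vt ((gen p q 1 * gen p q 0) ^ i.val * y 0) = C.1 i
  have : NeZero p := ⟨hp0⟩
  rw [hy3, hy4, ZMod.natCast_zmod_val]

end MPbcd198.D
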