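import Pool.Agent.Lib.MP_bcd198_co.D.Tri

/-!
# MP_bcd198_co, Stream D, job MCount: number of vertices of a map
-/

set_option autoImplicit false

namespace MPbcd198.D

open Equiv

variable {p q : ℕ} {X : Type} (ρ : Tri p q →* Perm X)

private theorem MCount_conj (g h k : Tri p q) (hg : g = h * k * h⁻¹) (hk : ∀ x, ρ k x ≠ x)
    (x : X) : ρ g x ≠ x := by
  intro hx
  apply hk (ρ h⁻¹ x)
  rw [hg, map_mul, map_mul, Perm.mul_apply, Perm.mul_apply] at hx
  have h1 := congrArg (ρ h⁻¹) hx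
  rw [← Perm.mul_apply, ← map_mul, inv_mul_cancel, map_one, Perm.one_apply] at h1
  exact h1

private theorem MCount_pow (j : ℕ) : gen p q 1 * ((gen p q 1 * gen p q 2) ^ j)⁻¹ =
    (gen p q 1 * gen p q 2) ^ j * gen p q 1 := by
  have h1 : gen p q 1 * (gen p q 1 * gen p q 2)⁻¹ * (gen p q 1)⁻¹ = gen p q 1 * gen p q 2 := by
    rw [mul_inv_rev, gen_inv, gen_inv, mul_assoc, mul_assoc, gen_sq, mul_one]
  have h2 := conj_pow (a := gen p q 1) (b := (gen p q 1 * gen p q 2)⁻¹) (i := j)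
  rw [h1, inv_pow, eq_mul_inv_iff_mul_eq] at h2
  exact h2.symm

/-- `⟨b,c⟩` acts freely.  By `vSub_form` `g = (BC)^i` or `(BC)^i B`, `i < q`.  First case: `i = 0`
since the minimal period of `bc` is `q` (`hρ.bc`; `Function.IsPeriodicPt`).  Second case:
`(BC)^(2j) B = (BC)^j B (BC)^(-j)` and `(BC)^(2j+1) B = (BC)^j B C B (BC)^(-j) = ((BC)^j B) C ((BC)^j B)⁻¹`
are conjugate to `B`, `C`, which have no fixed points (`hρ.pb`, `hρ.pc`). -/
theorem free_vSub (hyp : Hyp p q) (hρ : IsMapHom ρ) (g : Tri p q) (hg : g ∈ vSub p q) (x : X)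
    (h : ρ g x = x) : g = 1 := by
  have hq3 := hyp.hq
  obtain ⟨i, hi, h1 | h1⟩ := vSub_form (by omega : 0 < q) g hg
  · have h2 : Function.IsPeriodicPt (⇑(ρ (gen p q 1) * ρ (gen p q 2))) i x := by
      rw [Function.IsPeriodicPt, Function.IsFixedPt, Perm.iterate_eq_pow, ← map_mul, ← map_pow,
        ← h1]
      exact h
    have h3 := h2.minimalPeriod_dvd
    rw [hρ.bc x] at h3
    have h4 : i = 0 := Nat.eq_zero_of_dvd_of_lt h3 hi
    rw [h1, h4, pow_zero]
  · exfalso
    rcases Nat.even_or_odd' i with ⟨j, hj | hj⟩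
    · refine MCount_conj ρ g ((gen p q 1 * gen p q 2) ^ j) (gen p q 1) ?_
        (fun x => (hρ.pb x).1) x h
      rw [h1, hj, mul_assoc, MCount_pow, ← mul_assoc, ← pow_add, two_mul]
    · refine MCount_conj ρ g ((gen p q 1 * gen p q 2) ^ j * gen p q 1) (gen p q 2) ?_
        (fun x => (hρ.pc x).1) x h
      rw [h1, hj, mul_inv_rev, gen_inv, ← mul_assoc, mul_assoc _ (gen p q 1) _, MCount_pow,
        ← mul_assoc]
      congr 1
      rw [mul_assoc ((gen p q 1 * gen p q 2) ^ j) (gen p q 1) (gen p q 2), ← pow_succ, ← pow_add]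
      congr 1
      ring

/-- every `⟨b,c⟩`-orbit has `2q` elements (`card_vSub`, `free_vSub`) -/
theorem card_vertices (hyp : Hyp p q) (hρ : IsMapHom ρ) [Finite X] :
    2 * q * Nat.card (Quotient (orbS ρ)) = Nat.card X := by
  have hbij : Function.Bijective (fun t : Quotient (orbS ρ) × vSub p q =>
      ρ t.2.1 (Quotient.out t.1)) := by
    constructor
    · rintro ⟨v, g⟩ ⟨v', g'⟩ h
      simp only at h
      have e : ∀ (v : Quotient (orbS ρ)) (g : vSub p q),
          Quotient.mk (orbS ρ) (ρ g.1 (Quotient.out v)) = v := by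
        intro v g
        have h1 : Quotient.mk (orbS ρ) (Quotient.out v) =
            Quotient.mk (orbS ρ) (ρ g.1 (Quotient.out v)) :=
          Quotient.sound ⟨g.1, g.2, rfl⟩
        rw [← h1, Quotient.out_eq]
      have hv : v = v' := by
        rw [← e v g, h, e]
      subst hv
      have h2 : ρ (g'.1⁻¹ * g.1) (Quotient.out v) = Quotient.out v := by
        rw [map_mul, Perm.mul_apply, h, ← Perm.mul_apply, ← map_mul, inv_mul_cancel, map_one,
          Perm.one_apply]
      have h3 := free_vSub ρ hyp hρ _ (mul_mem (inv_mem g'.2) g.2) _ h2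
      have h4 : g = g' := Subtype.ext (inv_mul_eq_one.1 h3).symm
      rw [h4]
    · intro x
      have h1 : Quotient.mk (orbS ρ) (Quotient.out (Quotient.mk (orbS ρ) x)) =
          Quotient.mk (orbS ρ) x := Quotient.out_eq _
      obtain ⟨g, hg, h2⟩ := Quotient.exact h1
      exact ⟨(Quotient.mk (orbS ρ) x, ⟨g, hg⟩), h2⟩
  rw [← Nat.card_eq_of_bijective _ hbij, Nat.card_prod, card_vSub hyp, mul_comm]

/-- `mapHom` on the generators (`PresentedGroup.toGroup.of`) -/
theorem mapHom_gen {Ω : Type} {a b c : Perm Ω} (h : IsMap p q a b c) :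
    mapHom h (gen p q 0) = a ∧ mapHom h (gen p q 1) = b ∧ mapHom h (gen p q 2) = c := by
  refine ⟨?_, ?_, ?_⟩ <;>
  · unfold mapHom gen
    rw [PresentedGroup.toGroup.of]
    rfl

theorem isMapHom_mapHom {Ω : Type} {a b c : Perm Ω} (h : IsMap p q a b c) :
    IsMapHom (mapHom h) := by
  obtain ⟨h0, h1, h2⟩ := mapHom_gen h
  unfold IsMapHom
  rw [h0, h1, h2]
  exact h

end MPbcd198.D
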