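import Pool.Agent.Lib.MP_bcd198_co.D.SuA

/-!
# MP_bcd198_co, Stream D, job SuC: a graph all of whose vertices have a star gives a map
-/

set_option autoImplicit false

namespace MPbcd198.D

open Equiv

variable {p q : ℕ} {V : Type} {G : SimpleGraph V}

/-- every vertex is the vertex number 0 of a cycle, and every edge the first edge -/
theorem exists_pc (hs : ∀ v, HasStar p q G v) (v : V) : ∃ C : PC p G, C.1 0 = v := by
  obtain ⟨E, _⟩ := hs v
  exact ⟨(E 1).1, (E 1).2⟩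

theorem exists_pc_edge (hs : ∀ v, HasStar p q G v) (v w : V) (h : G.Adj v w) :
    ∃ C : PC p G, C.1 0 = v ∧ C.1 1 = w := by
  obtain ⟨E, _, _, hN⟩ := hs v
  obtain ⟨g, hg⟩ := hN w h
  exact ⟨(E g).1, (E g).2, hg⟩

/-- the cycles starting at a vertex form one `⟨b,c⟩`-orbit: for `k ∈ ⟨b,c⟩` there is
`π ∈ ⟨permB, permC⟩` with `π (E g) = E (k g)` for all `g` (`Subgroup.closure_induction` /
`opC_star`). -/
theorem same_vertex (hyp : Hyp p q) (hs : ∀ v, HasStar p q G v) (h : TwoCyc p G) (C C' : PC p G)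
    (h0 : C.1 0 = C'.1 0) :
    ∃ π ∈ Subgroup.closure ({permB, permC h} : Set (Perm (PC p G))), π C = C' := by
  obtain ⟨E, hB, hE, _⟩ := hs (C.1 0)
  have key : ∀ (k : Tri p q) (hk : k ∈ vSub p q),
      ∃ π ∈ Subgroup.closure ({permB, permC h} : Set (Perm (PC p G))),
        ∀ g : vSub p q, π (E g).1 = (E (⟨k, hk⟩ * g)).1 := by
    intro k hk
    induction hk using Subgroup.closure_induction with
    | mem x hx =>
      rcases hx with rfl | hx
      · refine ⟨permB, Subgroup.subset_closure (by simp), fun g => ?_⟩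
        exact (hB g).symm
      · rw [Set.mem_singleton_iff] at hx
        subst hx
        refine ⟨permC h, Subgroup.subset_closure (by simp), fun g => ?_⟩
        exact opC_star hyp h _ E hE g
    | one => exact ⟨1, one_mem _, fun g => by
        have h1 : (⟨1, one_mem _⟩ : vSub p q) * g = g := one_mul g
        rw [Perm.one_apply]
        exact congrArg (fun t => (E t).1) h1.symm⟩
    | mul x y hx hy ihx ihy =>
      obtain ⟨π₁, m1, e1⟩ := ihx
      obtain ⟨π₂, m2, e2⟩ := ihy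
      refine ⟨π₁ * π₂, mul_mem m1 m2, fun g => ?_⟩
      rw [Perm.mul_apply, e2, e1]
      have h1 : (⟨x, hx⟩ : vSub p q) * ((⟨y, hy⟩ : vSub p q) * g) =
          (⟨x * y, mul_mem hx hy⟩ : vSub p q) * g := by
        rw [← mul_assoc]
        rfl
      rw [h1]
    | inv x hx ihx =>
      obtain ⟨π₁, m1, e1⟩ := ihx
      refine ⟨π₁⁻¹, inv_mem m1, fun g => ?_⟩
      rw [Perm.inv_eq_iff_eq, e1]
      have h1 : (⟨x, hx⟩ : vSub p q) * ((⟨x⁻¹, inv_mem hx⟩ : vSub p q) * g) = g := by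
        rw [← mul_assoc]
        have h2 : (⟨x, hx⟩ : vSub p q) * ⟨x⁻¹, inv_mem hx⟩ = 1 :=
          Subtype.ext (mul_inv_cancel x)
        rw [h2, one_mul]
      rw [h1]
  have hg : E (E.symm ⟨C, rfl⟩) = ⟨C, rfl⟩ := E.apply_symm_apply _
  have hg' : E (E.symm ⟨C', h0.symm⟩) = ⟨C', h0.symm⟩ := E.apply_symm_apply _
  set g := E.symm ⟨C, rfl⟩ with hgdef
  set g' := E.symm ⟨C', h0.symm⟩ with hgdef'
  obtain ⟨π, hπ, e⟩ := key (g' * g⁻¹ : vSub p q).1 (g' * g⁻¹ : vSub p q).2
  refine ⟨π, hπ, ?_⟩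
  have h1 := e g
  have h2 : (⟨(g' * g⁻¹ : vSub p q).1, (g' * g⁻¹ : vSub p q).2⟩ : vSub p q) * g = g' :=
    inv_mul_cancel_right g' g
  rw [h2, hg, hg'] at h1
  exact h1

/-- number of flags: `PC p G` is the disjoint union over `v` of the `{C // C 0 = v}`
(`Equiv.sigmaFiberEquiv`), each equivalent to `vSub p q`; `card_vSub hyp`. -/
theorem card_pc (hyp : Hyp p q) (hs : ∀ v, HasStar p q G v) [Finite V] :
    Nat.card (PC p G) = 2 * (q * Nat.card V) := by
  have e1 : (Σ v : V, {C : PC p G // C.1 0 = v}) ≃ PC p G :=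
    Equiv.sigmaFiberEquiv fun C : PC p G => C.1 0
  have e2 : (Σ v : V, {C : PC p G // C.1 0 = v}) ≃ (Σ _ : V, vSub p q) :=
    Equiv.sigmaCongrRight fun v => ((hs v).choose).symm
  have e3 : (Σ _ : V, vSub p q) ≃ V × vSub p q := Equiv.sigmaEquivProd V (vSub p q)
  rw [Nat.card_congr ((e1.symm.trans e2).trans e3), Nat.card_prod, card_vSub hyp]
  ring

end MPbcd198.D
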