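import Pool.Agent.Lib.MP_bcd198_co.D.Defs

/-!
# MP_bcd198_co, Stream D, job TiB: isomorphisms of triples of permutations
-/

set_option autoImplicit false

namespace MPbcd198.D

open Equiv

/-- the image of a parametrised `p`-cycle under an injective homomorphism -/
private def TiB_map {p : ℕ} {V W : Type} {G : SimpleGraph V} {G' : SimpleGraph W} (f : G ≃g G')
    (C : PC p G) : PC p G' :=
  ⟨fun i => f (C.1 i), fun _ _ h => C.2.1 (f.injective h), fun i => f.map_adj_iff.2 (C.2.2 i)⟩

private theorem TiB_map_apply {p : ℕ} {V W : Type} {G : SimpleGraph V} {G' : SimpleGraph W}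
    (f : G ≃g G') (C : PC p G) (i : ZMod p) : (TiB_map f C).1 i = f (C.1 i) := rfl

private def TiB_equiv {p : ℕ} {V W : Type} {G : SimpleGraph V} {G' : SimpleGraph W}
    (f : G ≃g G') : PC p G ≃ PC p G' where
  toFun := TiB_map f
  invFun := TiB_map f.symm
  left_inv C := by
    apply Subtype.ext
    funext i
    rw [TiB_map_apply, TiB_map_apply, f.symm_apply_apply]
  right_inv C := by
    apply Subtype.ext
    funext i
    rw [TiB_map_apply, TiB_map_apply, f.apply_symm_apply]

/-- a graph isomorphism induces an isomorphism of the triples of parametrised `p`-cycles: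
`C ↦ f ∘ C`; the clause for `c` by `opC_unique`. -/
theorem graphIso_tiso {p : ℕ} {V W : Type} {G : SimpleGraph V} {G' : SimpleGraph W}
    (h : TwoCyc p G) (h' : TwoCyc p G') (f : G ≃g G') : TIso (pcTrip h) (pcTrip h') := by
  refine ⟨TiB_equiv f, fun C => ⟨rfl, rfl, ?_⟩⟩
  show TiB_map f (opC h C) = opC h' (TiB_map f C)
  obtain ⟨h1, h2, h3⟩ := opC_spec h C
  apply opC_unique
  · intro h4
    exact h1 ((TiB_equiv f).injective h4)
  · rw [TiB_map_apply, TiB_map_apply, h2]
  · rw [TiB_map_apply, TiB_map_apply, h3]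

private theorem TiB_edist {V W : Type} {G : SimpleGraph V} {G' : SimpleGraph W} (f : G →g G')
    (u v : V) : G'.edist (f u) (f v) ≤ G.edist u v := by
  unfold SimpleGraph.edist
  refine le_iInf fun w => (iInf_le _ (w.map f)).trans_eq ?_
  rw [SimpleGraph.Walk.length_map]

private theorem TiB_edist_iso {V W : Type} {G : SimpleGraph V} {G' : SimpleGraph W}
    (f : G ≃g G') (u v : V) : G'.edist (f u) (f v) = G.edist u v := by
  apply le_antisymm (TiB_edist f.toHom u v)
  have h := TiB_edist f.symm.toHom (f u) (f v)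
  have h1 : f.symm.toHom (f u) = u := f.symm_apply_apply u
  have h2 : f.symm.toHom (f v) = v := f.symm_apply_apply v
  rwa [h1, h2] at h

/-- restriction of a graph isomorphism to the links -/
private def TiB_link {V V' : Type} {G : SimpleGraph V} {G' : SimpleGraph V'} (f : G ≃g G')
    (r : ℕ) (v : V) : link r G v ≃g link r G' (f v) where
  toFun w := ⟨f w.1, by rw [TiB_edist_iso]; exact w.2⟩
  invFun w := ⟨f.symm w.1, by
    rw [← TiB_edist_iso f, f.apply_symm_apply]; exact w.2⟩
  left_inv w := Subtype.ext (f.symm_apply_apply w.1)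
  right_inv w := Subtype.ext (f.apply_symm_apply w.1)
  map_rel_iff' := f.map_adj_iff

/-- `IsLocally` is invariant under isomorphism of graphs: restrict `f` to the links
(`SimpleGraph.Iso` preserves `edist`: walks are mapped to walks) and compose. -/
theorem isLocally_iso {V V' W : Type} {r : ℕ} {F : SimpleGraph W} {u : W} {G : SimpleGraph V}
    {G' : SimpleGraph V'} (f : G ≃g G') (h : IsLocally r F u G) : IsLocally r F u G' := by
  intro v'
  obtain ⟨v, rfl⟩ := f.surjective v'
  obtain ⟨φ, hφ⟩ := h v
  refine ⟨φ.trans (TiB_link f r v), ?_⟩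
  show TiB_link f r v (φ (linkCentre r F u)) = _
  rw [hφ]
  rfl

end MPbcd198.D
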