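import Pool.Agent.Lib.MP_bcd198_co.D.StarF
import Pool.Agent.Lib.MP_bcd198_co.D.Dist
import Pool.Agent.Lib.MP_bcd198_co.D.StarUse
import Pool.Agent.Lib.MP_bcd198_co.D.TIso
import Pool.Agent.Lib.MP_bcd198_co.D.Back
import Pool.Agent.Lib.MP_bcd198_co.D.MCount
import Pool.Agent.Lib.MP_bcd198_co.D.MFace

/-!
# MP_bcd198_co, Stream D: the three theorems of the interface IfD.lean
-/

set_option autoImplicit false

namespace MPbcd198.D

open Equiv

variable {p q : ℕ}

/-- every vertex of a locally tiling graph has a star -/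
theorem stars (hyp : Hyp p q) (r : ℕ) (hr : p ≤ 2 * r + 1) {V : Type} (G : SimpleGraph V)
    (h : IsLocally r (tilingGraph p q) (baseV p q) G) (v : V) : HasStar p q G v :=
  star_transfer hyp.hp hr (baseV p q) (star_base hyp) v (h v)

/-- the map of a locally tiling graph on `Fin n`, on the flags `Fin (2 (q n))` -/
theorem exists_mapOf (hyp : Hyp p q) (r : ℕ) (hr : p ≤ 2 * r + 1) (n : ℕ)
    (G : LocGraph r (tilingGraph p q) (baseV p q) n) :
    ∃ (h : TwoCyc p G.1) (M : MapOn p q (Fin (2 * (q * n)))), TIso (pcTrip h) M.1 := by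
  have hs := stars hyp r hr G.1 G.2
  have h := twoCyc hyp hs
  have hc := card_pc hyp hs
  rw [Nat.card_fin] at hc
  have hfin : Finite (PC p G.1) := by
    rcases Nat.eq_zero_or_pos n with hn | hn
    · subst hn
      exact @Finite.of_subsingleton _ ⟨fun C => (IsEmpty.false (C.1 0)).elim⟩
    · have hq := hyp.hq
      exact Nat.finite_of_card_ne_zero (by rw [hc]; positivity)
  have e : PC p G.1 ≃ Fin (2 * (q * n)) := (Finite.equivFin _).trans (finCongr hc)
  obtain ⟨N, hN⟩ := exists_tiso e (pcTrip h)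
  exact ⟨h, ⟨N, tiso_isMap hN (isMap_pc hyp hs h)⟩, hN⟩

/-- [1.1] -/
theorem graphs_to_maps (hyp : Hyp p q) (r : ℕ) (hr : p ≤ 2 * r + 1) (n : ℕ)
    (hn : 0 < n) :
    Nat.card {x : UnlabelledS r (tilingGraph p q) (baseV p q) n // ¬ ClassConnected x} ≤
      Nat.card {y : MapClass p q (q * n) // ∃ M : MapOn p q (Fin (2 * (q * n))),
        Quotient.mk (mapSetoid p q _) M = y ∧ ¬ TripTrans M.1} := by
  classical
  have hnz : Nonempty (Fin n) := ⟨⟨0, hn⟩⟩
  have : Finite (MapOn p q (Fin (2 * (q * n)))) := Subtype.finite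
  have : Finite (MapClass p q (q * n)) := Quotient.finite _
  let g (x : {x : UnlabelledS r (tilingGraph p q) (baseV p q) n // ¬ ClassConnected x}) :=
    x.1.out
  have hg : ∀ x, Quotient.mk (locSetoid r (tilingGraph p q) (baseV p q) n) (g x) = x.1 :=
    fun x => Quotient.out_eq x.1
  let f : {x : UnlabelledS r (tilingGraph p q) (baseV p q) n // ¬ ClassConnected x} →
      {y : MapClass p q (q * n) // ∃ M : MapOn p q (Fin (2 * (q * n))),
        Quotient.mk (mapSetoid p q _) M = y ∧ ¬ TripTrans M.1} := fun x =>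
    ⟨Quotient.mk (mapSetoid p q _) (exists_mapOf hyp r hr n (g x)).choose_spec.choose,
      (exists_mapOf hyp r hr n (g x)).choose_spec.choose, rfl, by
        intro ht
        have h1 := (exists_mapOf hyp r hr n (g x)).choose_spec.choose_spec
        have h2 := tiso_trans h1 ht
        exact x.2 ⟨g x, hg x, trans_connected (stars hyp r hr (g x).1 (g x).2) _ h2⟩⟩
  refine Nat.card_le_card_of_injective f fun x y hxy => ?_
  have h1 := (exists_mapOf hyp r hr n (g x)).choose_spec.choose_spec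
  have h2 := (exists_mapOf hyp r hr n (g y)).choose_spec.choose_spec
  have h3 := setoid_tiso _ _ (Quotient.exact (congrArg Subtype.val hxy))
  have h4 := (h1.trans h3).trans h2.symm
  obtain ⟨φ⟩ := tiso_graphIso hyp (stars hyp r hr (g x).1 (g x).2)
    (stars hyp r hr (g y).1 (g y).2) _ _ h4
  apply Subtype.ext
  rw [← hg x, ← hg y]
  exact Quotient.sound ⟨φ⟩

/-- [1.3] -/
theorem nonempty_maps (hyp : Hyp p q) (r : ℕ) (hr : p ≤ 2 * r + 1) (n : ℕ)
    (_hn : 0 < n) (h : Nonempty (UnlabelledS r (tilingGraph p q) (baseV p q) n)) :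
    0 < NMap p q (q * n) := by
  obtain ⟨x⟩ := h
  obtain ⟨h, M, -⟩ := exists_mapOf hyp r hr n x.out
  have : Finite (MapOn p q (Fin (2 * (q * n)))) := Subtype.finite
  have : Nonempty (MapOn p q (Fin (2 * (q * n)))) := ⟨M⟩
  exact Nat.card_pos

/-- the graph of a map without short loops -/
theorem exists_graphOf (hyp : Hyp p q) (r : ℕ) (hr : p ≤ 2 * r + 1) (n : ℕ)
    (M : MapOn p q (Fin (2 * (q * n)))) (hM : NoShort (mapHom M.2) (lB q r)) :
    ∃ G : LocGraph r (tilingGraph p q) (baseV p q) n, Nonempty (G.1 ≃g mapGraph (mapHom M.2)) := by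
  have hc := card_vertices (mapHom M.2) hyp (isMapHom_mapHom M.2)
  have hq := hyp.hq
  rw [Nat.card_fin, mul_assoc] at hc
  have hc' : Nat.card (Quotient (orbS (mapHom M.2))) = n := by
    have h1 := Nat.eq_of_mul_eq_mul_left (by norm_num) hc
    exact Nat.eq_of_mul_eq_mul_left (by omega) h1
  have hf : Finite (Quotient (orbS (mapHom M.2))) := Quotient.finite _
  have e : Quotient (orbS (mapHom M.2)) ≃ Fin n := (Finite.equivFin _).trans (finCongr hc')
  have φ : (mapGraph (mapHom M.2)).comap e.symm ≃g mapGraph (mapHom M.2) :=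
    SimpleGraph.Iso.comap e.symm _
  exact ⟨⟨_, isLocally_iso φ.symm (mapGraph_local _ hyp hM)⟩, ⟨φ⟩⟩

/-- [1.2] -/
theorem maps_to_graphs (hyp : Hyp p q) (r : ℕ) (hr : p ≤ 2 * r + 1) : ∃ l : ℕ,
    ∀ n : ℕ, 0 < n →
      Nat.card {y : MapClass p q (q * n) // ∃ M : MapOn p q (Fin (2 * (q * n))),
        Quotient.mk (mapSetoid p q _) M = y ∧ NoShort (mapHom M.2) l} ≤
      Nat.card (UnlabelledS r (tilingGraph p q) (baseV p q) n) := by
  classical
  refine ⟨lB q r, fun n hn => ?_⟩
  have : Finite (UnlabelledS r (tilingGraph p q) (baseV p q) n) := Quotient.finite _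
  let g (y : {y : MapClass p q (q * n) // ∃ M : MapOn p q (Fin (2 * (q * n))),
        Quotient.mk (mapSetoid p q _) M = y ∧ NoShort (mapHom M.2) (lB q r)}) := y.2.choose
  have hg := fun y : {y : MapClass p q (q * n) // ∃ M : MapOn p q (Fin (2 * (q * n))),
        Quotient.mk (mapSetoid p q _) M = y ∧ NoShort (mapHom M.2) (lB q r)} => y.2.choose_spec
  let f : {y : MapClass p q (q * n) // ∃ M : MapOn p q (Fin (2 * (q * n))),
        Quotient.mk (mapSetoid p q _) M = y ∧ NoShort (mapHom M.2) (lB q r)} →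
      UnlabelledS r (tilingGraph p q) (baseV p q) n := fun y =>
    Quotient.mk _ (exists_graphOf hyp r hr n (g y) (hg y).2).choose
  refine Nat.card_le_card_of_injective f fun x y hxy => ?_
  obtain ⟨φ⟩ := (exists_graphOf hyp r hr n (g x) (hg x).2).choose_spec
  obtain ⟨ψ⟩ := (exists_graphOf hyp r hr n (g y) (hg y).2).choose_spec
  obtain ⟨χ⟩ := Quotient.exact hxy
  have hx := stars hyp r hr _ (mapGraph_local (mapHom (g x).2) hyp (hg x).2)
  have hy := stars hyp r hr _ (mapGraph_local (mapHom (g y).2) hyp (hg y).2)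
  have h1 := map_tiso (mapHom (g x).2) hyp hr (hg x).2 (isMapHom_mapHom _) (twoCyc hyp hx)
  have h2 := map_tiso (mapHom (g y).2) hyp hr (hg y).2 (isMapHom_mapHom _) (twoCyc hyp hy)
  have h3 := graphIso_tiso (twoCyc hyp hx) (twoCyc hyp hy) ((φ.symm.trans χ).trans ψ)
  have h4 := (h1.trans h3).trans h2.symm
  obtain ⟨a1, a2, a3⟩ := mapHom_gen (g x).2
  obtain ⟨b1, b2, b3⟩ := mapHom_gen (g y).2
  rw [a1, a2, a3, b1, b2, b3] at h4
  apply Subtype.ext
  rw [← (hg x).1, ← (hg y).1]
  exact Quotient.sound (tiso_setoid _ _ h4)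

end MPbcd198.D
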