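import Pool.Agent.Lib.MP_bcd198_co.D.MLoc
import Pool.Agent.Lib.MP_bcd198_co.D.Dist

/-!
# MP_bcd198_co, Stream D, job MfA: a map without short loops is the map of its graph
-/

set_option autoImplicit false

namespace MPbcd198.D

open Equiv

variable {p q r : ℕ} {X : Type} (ρ : Tri p q →* Perm X)

/-- `faceM (ρ g x) i = vtM (ρ ((BA)^i g) x) = thV x (vt ((BA)^i g)) = thV x (faceFun g i)` -/
theorem faceM_eq (x : X) (g : Tri p q) (i : ZMod p) :
    faceM ρ (ρ g x) i = thV ρ x (faceFun g i) := by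
  unfold faceM faceFun
  rw [thV_vt, map_mul, Perm.mul_apply]

private theorem MfA_ball (hyp : Hyp p q) (hr : p ≤ 2 * r + 1) (i : ZMod p) :
    (tilingGraph p q).edist (baseV p q) (faceFun 1 i) ≤ (r : ℕ∞) := by
  have hp3 := hyp.hp
  have h := edist_pc (faceF hyp 1) r (by omega) hr i
  rw [faceF_zero, vt_one] at h
  exact h

private theorem MfA_one (y : X) (i : ZMod p) : faceM ρ y i = thV ρ y (faceFun 1 i) := by
  have h := faceM_eq ρ y 1 i
  rwa [map_one, Perm.one_apply] at h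

/-- injectivity: `faceM y i = thV y (faceFun 1 i)`; all `faceFun 1 i` are in the ball of radius `r`
(`edist_pc` applied to `faceF hyp 1`), so injectivity of `φ` of `link_iso` and `face_inj`. -/
theorem faceM_inj (hyp : Hyp p q) (hr : p ≤ 2 * r + 1) (hno : NoShort ρ (lB q r)) (y : X) :
    Function.Injective (faceM ρ y) := by
  obtain ⟨φ, _, hφ⟩ := link_iso ρ hyp hno y
  intro i j hij
  rw [MfA_one, MfA_one] at hij
  have h1 : φ ⟨faceFun 1 i, MfA_ball hyp hr i⟩ = φ ⟨faceFun 1 j, MfA_ball hyp hr j⟩ := by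
    apply Subtype.ext
    rw [hφ, hφ]
    exact hij
  have h2 := congrArg Subtype.val (φ.injective h1)
  exact face_inj hyp 1 h2

/-- adjacency: `φ` of `link_iso` and `face_adj` -/
theorem faceM_adj (hyp : Hyp p q) (hr : p ≤ 2 * r + 1) (hno : NoShort ρ (lB q r)) (y : X)
    (i : ZMod p) : (mapGraph ρ).Adj (faceM ρ y i) (faceM ρ y (i + 1)) := by
  obtain ⟨φ, _, hφ⟩ := link_iso ρ hyp hno y
  have h1 : (link r (tilingGraph p q) (baseV p q)).Adj ⟨faceFun 1 i, MfA_ball hyp hr i⟩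
      ⟨faceFun 1 (i + 1), MfA_ball hyp hr (i + 1)⟩ := face_adj hyp 1 i
  have h2 := φ.map_rel_iff.2 h1
  have h3 : (mapGraph ρ).Adj (φ ⟨faceFun 1 i, MfA_ball hyp hr i⟩).1
      (φ ⟨faceFun 1 (i + 1), MfA_ball hyp hr (i + 1)⟩).1 := h2
  rw [hφ, hφ] at h3
  rw [MfA_one, MfA_one]
  exact h3

/-- the face of the flag `y` as a parametrised `p`-cycle of the graph of the map -/
def psiM (hyp : Hyp p q) (hr : p ≤ 2 * r + 1) (hno : NoShort ρ (lB q r)) (y : X) :
    PC p (mapGraph ρ) :=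
  ⟨faceM ρ y, faceM_inj ρ hyp hr hno y, faceM_adj ρ hyp hr hno y⟩

/-- `A`: `vtM ((BA)^i A y) = vtM ((BA)^(1-i) y)`, as in `faceF_A` -/
theorem psiM_A (hyp : Hyp p q) (hr : p ≤ 2 * r + 1) (hno : NoShort ρ (lB q r)) (y : X) :
    psiM ρ hyp hr hno (ρ (gen p q 0) y) = opA (psiM ρ hyp hr hno y) := by
  apply Subtype.ext
  funext i
  have h1 := congrFun (congrArg Subtype.val (faceF_A hyp 1)) i
  rw [mul_one] at h1
  have h2 : faceFun (gen p q 0) i = faceFun 1 (1 - i) := h1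
  have h3 : faceM ρ (ρ (gen p q 0) y) i = faceM ρ y (1 - i) := by
    rw [faceM_eq, MfA_one, h2]
  exact h3

/-- `B`: as in `faceF_B` -/
theorem psiM_B (hyp : Hyp p q) (hr : p ≤ 2 * r + 1) (hno : NoShort ρ (lB q r)) (y : X) :
    psiM ρ hyp hr hno (ρ (gen p q 1) y) = opB (psiM ρ hyp hr hno y) := by
  apply Subtype.ext
  funext i
  have h1 := congrFun (congrArg Subtype.val (faceF_B hyp 1)) i
  rw [mul_one] at h1
  have h2 : faceFun (gen p q 1) i = faceFun 1 (-i) := h1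
  have h3 : faceM ρ (ρ (gen p q 1) y) i = faceM ρ y (-i) := by
    rw [faceM_eq, MfA_one, h2]
  exact h3

end MPbcd198.D
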