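import Pool.Agent.Lib.MP_bcd198_co.D.MfA

/-!
# MP_bcd198_co, Stream D, job MfB: a map without short loops is the map of its graph
-/

set_option autoImplicit false

namespace MPbcd198.D

open Equiv

variable {p q r : ℕ} {X : Type} (ρ : Tri p q →* Perm X)

/-- injectivity: `psiM y = psiM y'` implies `vtM y = vtM y'`, so `y' = ρ g y` with `g ∈ ⟨b,c⟩`
(`vtM_eq_iff`); by `faceM_eq` `thV y (faceFun 1 i) = thV y (faceFun g i)` for all `i`; all these
vertices are in the ball of radius `r` (`edist_pc` for `faceF hyp 1`, `faceF hyp g`, whose vertex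
number 0 is the base vertex), so `faceF hyp 1 = faceF hyp g` by injectivity of `φ` (`link_iso`), and
`g = 1` by `faceF_injective`. -/
theorem psiM_injective (hyp : Hyp p q) (hr : p ≤ 2 * r + 1) (hno : NoShort ρ (lB q r)) :
    Function.Injective (psiM ρ hyp hr hno) := by
  have hp3 := hyp.hp
  intro y y' h
  have hf : ∀ i, faceM ρ y i = faceM ρ y' i := fun i => congrFun (congrArg Subtype.val h) i
  have h0 := hf 0
  have e0 : ∀ z : X, faceM ρ z 0 = vtM ρ z := by
    intro z
    unfold faceM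
    rw [ZMod.val_zero, pow_zero, map_one, Perm.one_apply]
  rw [e0, e0] at h0
  obtain ⟨g, hg, hgy⟩ := (vtM_eq_iff ρ y y').1 h0
  obtain ⟨φ, _, hφ⟩ := link_iso ρ hyp hno y
  have b1 : ∀ i, (tilingGraph p q).edist (baseV p q) (faceFun 1 i) ≤ (r : ℕ∞) := by
    intro i
    have h := edist_pc (faceF hyp 1) r (by omega) hr i
    rw [faceF_zero, vt_one] at h
    exact h
  have b2 : ∀ i, (tilingGraph p q).edist (baseV p q) (faceFun g i) ≤ (r : ℕ∞) := by
    intro i
    have h := edist_pc (faceF hyp g) r (by omega) hr i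
    have h' := vt_mul_left g 1 hg
    rw [mul_one] at h'
    rw [faceF_zero, h', vt_one] at h
    exact h
  have h2 : ∀ i, faceFun (p := p) (q := q) 1 i = faceFun g i := by
    intro i
    have h3 : φ ⟨faceFun 1 i, b1 i⟩ = φ ⟨faceFun g i, b2 i⟩ := by
      apply Subtype.ext
      rw [hφ, hφ]
      have h4 := hf i
      rw [← hgy, faceM_eq] at h4
      have h5 := faceM_eq ρ y 1 i
      rw [map_one, Perm.one_apply] at h5
      rw [h5] at h4
      exact h4
    exact congrArg Subtype.val (φ.injective h3)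
  have h3 : faceF hyp 1 = faceF hyp g := Subtype.ext (funext h2)
  have h4 := faceF_injective hyp h3
  rw [← hgy, ← h4, map_one, Perm.one_apply]

/-- surjectivity: let `C` be a `p`-cycle of `mapGraph ρ`, `C 0 = vtM y`.  By `link_transfer`
(with `φ` of `link_iso` at `y`) `C = T C'` with `C'` a `p`-cycle of the tiling graph starting at the
base vertex, `C' = faceF hyp g` (`faceF_surjective`) with `g ∈ ⟨b,c⟩`; so
`C i = φ (faceFun g i) = thV y (faceFun g i) = faceM (ρ g y) i`. -/
theorem psiM_surjective (hyp : Hyp p q) (hr : p ≤ 2 * r + 1) (hno : NoShort ρ (lB q r)) :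
    Function.Surjective (psiM ρ hyp hr hno) := by
  have hp3 := hyp.hp
  intro C
  obtain ⟨y, hy⟩ := Quotient.exists_rep (C.1 0)
  obtain ⟨φ, hφ0, hφ⟩ := link_iso ρ hyp hno y
  obtain ⟨T, hT⟩ := link_transfer (p := p) (by omega) hr (baseV p q) (vtM ρ y) φ hφ0
  set C' := T.symm ⟨C, hy.symm⟩ with hC'
  obtain ⟨g, hg⟩ := faceF_surjective hyp C'.1
  refine ⟨ρ g y, ?_⟩
  apply Subtype.ext
  funext i
  have hb : (tilingGraph p q).edist (baseV p q) (C'.1.1 i) ≤ (r : ℕ∞) := by
    have h := edist_pc C'.1 r (by omega) hr i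
    rw [C'.2] at h
    exact h
  have h1 := hT C' i hb
  rw [hφ] at h1
  have h2 : T C' = ⟨C, hy.symm⟩ := by rw [hC', Equiv.apply_symm_apply]
  rw [h2] at h1
  have h3 : C'.1.1 i = faceFun g i := by rw [← hg]; rfl
  have h4 : faceM ρ (ρ g y) i = C.1 i := by
    rw [faceM_eq, ← h3]
    exact h1.symm
  exact h4

end MPbcd198.D
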