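import Pool.Agent.Lib.MP_bcd198_co.D.MfB

/-!
# MP_bcd198_co, Stream D, job MfC: a map without short loops is the map of its graph
-/

set_option autoImplicit false

namespace MPbcd198.D

open Equiv

variable {p q r : ℕ} {X : Type} (ρ : Tri p q →* Perm X)

/-- the map is isomorphic to the map of its graph.  `e = psiM`; the clause for `c` by `opC_unique`:
`psiM (ρ C y) ≠ psiM y` by injectivity (`hρ.pc`), the vertices number 0 and 1 are the same
(`vtM (ρ C y) = vtM y`, `A C = C A`). -/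
theorem map_tiso (hyp : Hyp p q) (hr : p ≤ 2 * r + 1) (hno : NoShort ρ (lB q r))
    (hρ : IsMapHom ρ) (h : TwoCyc p (mapGraph ρ)) :
    TIso (ρ (gen p q 0), ρ (gen p q 1), ρ (gen p q 2)) (pcTrip h) := by
  have hp3 := hyp.hp
  have hgen : ∀ _ : ℕ, gen p q 1 ∈ vSub p q ∧ gen p q 2 ∈ vSub p q := fun _ =>
    ⟨Subgroup.subset_closure (by simp), Subgroup.subset_closure (by simp)⟩
  refine ⟨Equiv.ofBijective (psiM ρ hyp hr hno)
    ⟨psiM_injective ρ hyp hr hno, psiM_surjective ρ hyp hr hno⟩, fun x => ⟨?_, ?_, ?_⟩⟩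
  · exact psiM_A ρ hyp hr hno x
  · exact psiM_B ρ hyp hr hno x
  · apply opC_unique h (psiM ρ hyp hr hno x) (psiM ρ hyp hr hno (ρ (gen p q 2) x))
    · intro h1
      exact (hρ.pc x).1 (psiM_injective ρ hyp hr hno h1)
    · have h1 : faceM ρ (ρ (gen p q 2) x) 0 = faceM ρ x 0 := by
        unfold faceM
        rw [ZMod.val_zero, pow_zero, map_one, Perm.one_apply, Perm.one_apply]
        exact ((vtM_eq_iff ρ _ _).2 ⟨gen p q 2, (hgen 0).2, rfl⟩).symm
      exact h1
    · have h1 : faceM ρ (ρ (gen p q 2) x) 1 = faceM ρ x 1 := by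
        unfold faceM
        rw [ba_val (by omega) 1 1 (by simp), zpow_one]
        apply Eq.symm
        rw [vtM_eq_iff]
        refine ⟨gen p q 1 * gen p q 2 * (gen p q 1)⁻¹,
          mul_mem (mul_mem (hgen 0).1 (hgen 0).2) (inv_mem (hgen 0).1), ?_⟩
        rw [← Perm.mul_apply, ← map_mul, ← Perm.mul_apply, ← map_mul]
        congr 2
        rw [mul_assoc (gen p q 1 * gen p q 2), inv_mul_cancel_left, mul_assoc, mul_assoc,
          ac_comm]
      exact h1

end MPbcd198.D
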