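import Pool.Agent.Lib.MP_bcd198_co.D.Flag

/-!
# MP_bcd198_co, Stream D, job MlA: the graph of a map without short loops is locally the tiling

`ρ : Tri p q →* Perm X` with `NoShort ρ (lB q r)`, `lB q r = 2 ((r+1)(2q+1)) + 4q + 1`.
-/

set_option autoImplicit false

namespace MPbcd198.D

open Equiv

variable {p q r : ℕ} {X : Type} (ρ : Tri p q →* Perm X)

theorem vtM_eq_iff (x y : X) : vtM ρ x = vtM ρ y ↔ ∃ g ∈ vSub p q, ρ g x = y :=
  ⟨fun h => Quotient.exact h, fun h => Quotient.sound h⟩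

theorem thV_vt (x : X) (g : Tri p q) : thV ρ x (vt g) = vtM ρ (ρ g x) := by
  have h : thV ρ x (vt g) = vtM ρ (ρ (g⁻¹)⁻¹ x) := rfl
  rw [h, inv_inv]

private theorem MlA_walk (hyp : Hyp p q) {v u : Tri p q ⧸ vSub p q}
    (w : (tilingGraph p q).Walk v u) (hu : u = baseV p q) :
    ∃ g ∈ ballT p q (w.length * (2 * q + 1)), v = vt g := by
  have hq3 := hyp.hq
  induction w with
  | nil => exact ⟨1, one_ball _, by rw [hu, vt_one]⟩
  | cons h w' ih =>
    obtain ⟨g, hg, hgv⟩ := ih hu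
    obtain ⟨_, x, hx1, hx2⟩ := (adj_iff _ _).1 h
    rw [hgv] at hx2
    obtain ⟨k, hk, hkx⟩ := (vt_eq_iff g (gen p q 0 * x)).1 hx2
    refine ⟨gen p q 0 * (k * g), ?_, ?_⟩
    · have h1 := ballT_mul (gen_ball (p := p) (q := q) 0)
        (ballT_mul (vSub_ball (by omega : 0 < q) k hk) hg)
      refine ballT_mono (le_of_eq ?_) h1
      rw [SimpleGraph.Walk.length_cons]
      ring
    · rw [hx1, ← hkx, ← mul_assoc, gen_sq, one_mul]

/-- the vertices at distance at most `k` from the base vertex are the `vt g` with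
`|g| ≤ k (2q+1)`: induction on `k` (or on a walk of length at most `k`), a neighbour of `vt g` is
`vt (A w g)` with `w ∈ ⟨b,c⟩` (`adj_iff`, `vt_eq_iff`), `|w| ≤ 2q` (`vSub_ball`). -/
theorem ball_F (hyp : Hyp p q) (k : ℕ) (v : Tri p q ⧸ vSub p q)
    (h : (tilingGraph p q).edist (baseV p q) v ≤ (k : ℕ∞)) :
    ∃ g ∈ ballT p q (k * (2 * q + 1)), v = vt g := by
  have hne : (tilingGraph p q).edist (baseV p q) v ≠ ⊤ := by
    intro h1
    rw [h1, top_le_iff] at h
    exact ENat.natCast_ne_top k h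
  obtain ⟨w, hw⟩ := SimpleGraph.exists_walk_of_edist_ne_top hne
  obtain ⟨g, hg, hgv⟩ := MlA_walk hyp w.reverse rfl
  refine ⟨g, ballT_mono ?_ hg, hgv⟩
  rw [SimpleGraph.Walk.length_reverse]
  rw [← hw] at h
  exact Nat.mul_le_mul_right _ (by exact_mod_cast h)

end MPbcd198.D
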