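import Pool.Agent.Lib.MP_bcd198_co.D.MlA

/-!
# MP_bcd198_co, Stream D, job MlB: the graph of a map without short loops is locally the tiling

`ρ : Tri p q →* Perm X` with `NoShort ρ (lB q r)`, `lB q r = 2 ((r+1)(2q+1)) + 4q + 1`.
-/

set_option autoImplicit false

namespace MPbcd198.D

open Equiv

variable {p q r : ℕ} {X : Type} (ρ : Tri p q →* Perm X)

/-- injectivity on the ball: `ρ g' x = ρ w (ρ g x)` with `w ∈ ⟨b,c⟩`, so `g'⁻¹ w g` fixes `x` and
has length at most `2 (r+1)(2q+1) + 2q ≤ lB q r` (`ballT_mul`, `ballT_inv`, `vSub_ball`), hence it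
is `1`. -/
theorem thV_inj (hyp : Hyp p q) (hno : NoShort ρ (lB q r)) (x : X) (g g' : Tri p q)
    (hg : g ∈ ballT p q ((r + 1) * (2 * q + 1))) (hg' : g' ∈ ballT p q ((r + 1) * (2 * q + 1)))
    (h : thV ρ x (vt g) = thV ρ x (vt g')) : vt g = vt g' := by
  have hq3 := hyp.hq
  rw [thV_vt, thV_vt, vtM_eq_iff] at h
  obtain ⟨w, hw, hwx⟩ := h
  rw [vt_eq_iff]
  refine ⟨w, hw, ?_⟩
  by_contra hne
  have hb : g'⁻¹ * (w * g) ∈ ballT p q (lB q r) := by
    have h1 := ballT_mul (ballT_inv hg') (ballT_mul (vSub_ball (by omega : 0 < q) w hw) hg)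
    refine ballT_mono ?_ h1
    unfold lB
    omega
  have hne1 : g'⁻¹ * (w * g) ≠ 1 := by
    intro h1
    exact hne (inv_mul_eq_one.1 h1)
  apply hno _ hb hne1 x
  rw [map_mul, map_mul, Perm.mul_apply, Perm.mul_apply, hwx, ← Perm.mul_apply, ← map_mul,
    inv_mul_cancel, map_one, Perm.one_apply]

/-- adjacency on the ball.  `→`: `vt g' = vt (A w g)`, `w ∈ ⟨b,c⟩`; use the flag `ρ (w g) x`; the two
vertices are different by `thV_inj`.  `←`: there is `y` with `vtM y = vtM (ρ g x)`,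
`vtM (ρ A y) = vtM (ρ g' x)`: `y = ρ (w g) x`, `ρ (A w g) x = ρ (w' g') x` up to an element
`w' ∈ ⟨b,c⟩`, so `(w' g')⁻¹ (A w g)` fixes `x`, its length is at most
`2 (r+1)(2q+1) + 4q + 1 = lB q r`, hence `w' g' = A w g` and `vt g' = vt (A w g)`; `vt g ≠ vt g'`
since the images are different. -/
theorem thV_adj (hyp : Hyp p q) (hno : NoShort ρ (lB q r)) (x : X) (g g' : Tri p q)
    (hg : g ∈ ballT p q ((r + 1) * (2 * q + 1))) (hg' : g' ∈ ballT p q ((r + 1) * (2 * q + 1))) :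
    (tilingGraph p q).Adj (vt g) (vt g') ↔
      (mapGraph ρ).Adj (thV ρ x (vt g)) (thV ρ x (vt g')) := by
  have hq3 := hyp.hq
  constructor
  · intro h
    have hne : vt g ≠ vt g' := ((adj_iff _ _).1 h).1
    obtain ⟨_, x', h1, h2⟩ := (adj_iff _ _).1 h
    refine ⟨fun h3 => hne (thV_inj ρ hyp hno x g g' hg hg' h3), ρ x' x, ?_, ?_⟩
    · rw [h1, thV_vt]
    · rw [h2, thV_vt, map_mul, Perm.mul_apply]
  · rintro ⟨hne, y, h1, h2⟩
    rw [thV_vt, vtM_eq_iff] at h1 h2
    obtain ⟨w, hw, hwx⟩ := h1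
    obtain ⟨w', hw', hwx'⟩ := h2
    have hkey : w' * g' = gen p q 0 * (w * g) := by
      by_contra hcon
      have hb : (w' * g')⁻¹ * (gen p q 0 * (w * g)) ∈ ballT p q (lB q r) := by
        have h1 := ballT_mul (ballT_inv (ballT_mul (vSub_ball (by omega : 0 < q) w' hw') hg'))
          (ballT_mul (gen_ball (p := p) (q := q) 0)
            (ballT_mul (vSub_ball (by omega : 0 < q) w hw) hg))
        refine ballT_mono ?_ h1
        unfold lB
        omega
      apply hno _ hb (fun h3 => hcon (inv_mul_eq_one.1 h3)) x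
      have e1 : ρ (gen p q 0 * (w * g)) x = ρ (w' * g') x := by
        rw [map_mul, map_mul, Perm.mul_apply, Perm.mul_apply, hwx, ← hwx', map_mul,
          Perm.mul_apply]
      rw [map_mul, Perm.mul_apply, e1, ← Perm.mul_apply, ← map_mul, inv_mul_cancel, map_one,
        Perm.one_apply]
    rw [adj_iff]
    refine ⟨fun h3 => hne (by rw [h3]), w * g, ?_, ?_⟩
    · exact (vt_mul_left w g hw).symm
    · rw [← hkey]
      exact (vt_mul_left w' g' hw').symm

end MPbcd198.D
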