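import Pool.Agent.Lib.MP_bcd198_co.D.MlB

/-!
# MP_bcd198_co, Stream D, job MlC: the graph of a map without short loops is locally the tiling

`ρ : Tri p q →* Perm X` with `NoShort ρ (lB q r)`, `lB q r = 2 ((r+1)(2q+1)) + 4q + 1`.
-/

set_option autoImplicit false

namespace MPbcd198.D

open Equiv

variable {p q r : ℕ} {X : Type} (ρ : Tri p q →* Perm X)

private theorem MlC_walk {V : Type} {G : SimpleGraph V} {u v : V} {k : ℕ}
    (h : G.edist u v ≤ (k : ℕ∞)) : ∃ w : G.Walk v u, w.length ≤ k := by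
  have hne : G.edist u v ≠ ⊤ := by
    intro h1
    rw [h1, top_le_iff] at h
    exact ENat.natCast_ne_top k h
  obtain ⟨w, hw⟩ := SimpleGraph.exists_walk_of_edist_ne_top hne
  refine ⟨w.reverse, ?_⟩
  rw [SimpleGraph.Walk.length_reverse]
  rw [← hw] at h
  exact_mod_cast h

private theorem MlC_base (x : X) : thV ρ x (baseV p q) = vtM ρ x := by
  rw [← vt_one, thV_vt, map_one, Perm.one_apply]

private theorem MlC_ball (hyp : Hyp p q) (hno : NoShort ρ (lB q r)) (x : X)
    {v u : Tri p q ⧸ vSub p q} (w : (tilingGraph p q).Walk v u) (hu : u = baseV p q)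
    (hl : w.length ≤ r) : (mapGraph ρ).edist (vtM ρ x) (thV ρ x v) ≤ (w.length : ℕ∞) := by
  induction w with
  | nil => rw [hu, MlC_base, SimpleGraph.edist_self]; exact zero_le
  | @cons v1 v2 _ h w' ih =>
    rw [SimpleGraph.Walk.length_cons] at hl
    have h1 := ih hu (by omega)
    have hb2 : (tilingGraph p q).edist (baseV p q) v2 ≤ (w'.length : ℕ∞) := by
      rw [← hu, SimpleGraph.edist_comm]
      exact SimpleGraph.edist_le w'
    have hb1 : (tilingGraph p q).edist (baseV p q) v1 ≤ ((w'.length + 1 : ℕ) : ℕ∞) := by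
      rw [← hu, SimpleGraph.edist_comm]
      exact SimpleGraph.edist_le (SimpleGraph.Walk.cons h w')
    obtain ⟨g1, hg1, e1⟩ := ball_F hyp _ v1 hb1
    obtain ⟨g2, hg2, e2⟩ := ball_F hyp _ v2 hb2
    have hadj : (mapGraph ρ).Adj (thV ρ x v1) (thV ρ x v2) := by
      rw [e1, e2] at h ⊢
      exact (thV_adj ρ hyp hno x g1 g2
        (ballT_mono (Nat.mul_le_mul_right _ (by omega)) hg1)
        (ballT_mono (Nat.mul_le_mul_right _ (by omega)) hg2)).1 h
    rw [SimpleGraph.Walk.length_cons]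
    refine (SimpleGraph.edist_triangle (v := thV ρ x v2)).trans ?_
    have h2 : (mapGraph ρ).edist (thV ρ x v2) (thV ρ x v1) = 1 :=
      SimpleGraph.edist_eq_one_iff_adj.2 hadj.symm
    rw [h2]
    push_cast
    exact add_le_add_left h1 1

/-- balls are mapped into balls (induction on `k ≤ r`, `ball_F`, `thV_adj`) -/
theorem thV_ball (hyp : Hyp p q) (hno : NoShort ρ (lB q r)) (x : X) (k : ℕ) (hk : k ≤ r)
    (v : Tri p q ⧸ vSub p q) (h : (tilingGraph p q).edist (baseV p q) v ≤ (k : ℕ∞)) :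
    (mapGraph ρ).edist (vtM ρ x) (thV ρ x v) ≤ (k : ℕ∞) := by
  obtain ⟨w, hw⟩ := MlC_walk h
  have h1 := MlC_ball ρ hyp hno x w rfl (by omega)
  refine h1.trans ?_
  exact_mod_cast hw

private theorem MlC_surj (hyp : Hyp p q) (x : X) {w u : Quotient (orbS ρ)}
    (W : (mapGraph ρ).Walk w u) (hu : u = vtM ρ x) :
    ∃ v, (tilingGraph p q).edist (baseV p q) v ≤ (W.length : ℕ∞) ∧ thV ρ x v = w := by
  induction W with
  | nil =>
    refine ⟨baseV p q, ?_, ?_⟩
    · rw [SimpleGraph.edist_self]; exact zero_le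
    · rw [MlC_base, hu]
  | cons h W' ih =>
    obtain ⟨v', hv1, hv2⟩ := ih hu
    obtain ⟨_, y, hy1, hy2⟩ := h.symm
    obtain ⟨g, rfl⟩ := vt_surj v'
    rw [thV_vt] at hv2
    rw [hy1, vtM_eq_iff] at hv2
    obtain ⟨w0, hw0, hwy⟩ := hv2
    refine ⟨vt (gen p q 0 * (w0 * g)), ?_, ?_⟩
    · have hadj : (tilingGraph p q).Adj (vt g) (vt (gen p q 0 * (w0 * g))) := by
        rw [← vt_mul_left w0 g hw0, adj_iff]
        exact ⟨vt_ne hyp _, w0 * g, rfl, rfl⟩
      rw [SimpleGraph.Walk.length_cons]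
      refine (SimpleGraph.edist_triangle (v := vt g)).trans ?_
      rw [SimpleGraph.edist_eq_one_iff_adj.2 hadj]
      push_cast
      exact add_le_add_left hv1 1
    · rw [thV_vt, map_mul, map_mul, Perm.mul_apply, Perm.mul_apply, hwy, ← hy2]

/-- surjectivity on the ball (induction on `k`): if `w` is adjacent to `thV x v`,
`v = vt g`, then there is `y` with `vtM y = vtM (ρ g x)`, `w = vtM (ρ A y)`, `y = ρ (w₀ g) x`, so
`w = thV x (vt (A w₀ g))` and `vt (A w₀ g)` is adjacent to `vt g` (`vt_ne`). -/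
theorem thV_surj (hyp : Hyp p q) (x : X) (k : ℕ) (w : Quotient (orbS ρ))
    (h : (mapGraph ρ).edist (vtM ρ x) w ≤ (k : ℕ∞)) :
    ∃ v, (tilingGraph p q).edist (baseV p q) v ≤ (k : ℕ∞) ∧ thV ρ x v = w := by
  obtain ⟨W, hW⟩ := MlC_walk h
  obtain ⟨v, h1, h2⟩ := MlC_surj ρ hyp x W rfl
  refine ⟨v, h1.trans ?_, h2⟩
  exact_mod_cast hW

end MPbcd198.D
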