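import Pool.Agent.Lib.MP_bcd198_co.D.MlC

/-!
# MP_bcd198_co, Stream D, job MlD: the graph of a map without short loops is locally the tiling

`ρ : Tri p q →* Perm X` with `NoShort ρ (lB q r)`, `lB q r = 2 ((r+1)(2q+1)) + 4q + 1`.
-/

set_option autoImplicit false

namespace MPbcd198.D

open Equiv

variable {p q r : ℕ} {X : Type} (ρ : Tri p q →* Perm X)

/-- the isomorphism of links (from the previous statements; `ball_F` to write the vertices of the
ball of radius `r` as `vt g` with `|g| ≤ r (2q+1) ≤ (r+1)(2q+1)`). -/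
theorem link_iso (hyp : Hyp p q) (hno : NoShort ρ (lB q r)) (x : X) :
    ∃ φ : link r (tilingGraph p q) (baseV p q) ≃g link r (mapGraph ρ) (vtM ρ x),
      φ (linkCentre r (tilingGraph p q) (baseV p q)) = linkCentre r (mapGraph ρ) (vtM ρ x) ∧
        ∀ v, (φ v).1 = thV ρ x v.1 := by
  have hrep : ∀ v : {w // (tilingGraph p q).edist (baseV p q) w ≤ (r : ℕ∞)},
      ∃ g ∈ ballT p q ((r + 1) * (2 * q + 1)), v.1 = vt g := by
    intro v
    obtain ⟨g, hg, h⟩ := ball_F hyp r v.1 v.2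
    exact ⟨g, ballT_mono (Nat.mul_le_mul_right _ (Nat.le_succ r)) hg, h⟩
  let f : {w // (tilingGraph p q).edist (baseV p q) w ≤ (r : ℕ∞)} →
      {w // (mapGraph ρ).edist (vtM ρ x) w ≤ (r : ℕ∞)} :=
    fun v => ⟨thV ρ x v.1, thV_ball ρ hyp hno x r le_rfl v.1 v.2⟩
  have hf : Function.Bijective f := by
    constructor
    · intro v v' h
      have h1 : thV ρ x v.1 = thV ρ x v'.1 := congrArg Subtype.val h
      obtain ⟨g, hg, e⟩ := hrep v
      obtain ⟨g', hg', e'⟩ := hrep v'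
      apply Subtype.ext
      rw [e, e'] at h1 ⊢
      exact thV_inj ρ hyp hno x g g' hg hg' h1
    · intro w
      obtain ⟨v, h1, h2⟩ := thV_surj ρ hyp x r w.1 w.2
      exact ⟨⟨v, h1⟩, Subtype.ext h2⟩
  refine ⟨⟨Equiv.ofBijective f hf, ?_⟩, ?_, fun v => rfl⟩
  · intro v v'
    obtain ⟨g, hg, e⟩ := hrep v
    obtain ⟨g', hg', e'⟩ := hrep v'
    have h1 := thV_adj ρ hyp hno x g g' hg hg'
    rw [← e, ← e'] at h1
    exact h1.symm
  · apply Subtype.ext
    have h1 : thV ρ x (baseV p q) = vtM ρ x := by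
      rw [← vt_one, thV_vt, map_one, Perm.one_apply]
    exact h1

theorem mapGraph_local (hyp : Hyp p q) (hno : NoShort ρ (lB q r)) :
    IsLocally r (tilingGraph p q) (baseV p q) (mapGraph ρ) := by
  intro v
  obtain ⟨x, rfl⟩ := Quotient.exists_rep v
  obtain ⟨φ, h, -⟩ := link_iso ρ hyp hno x
  exact ⟨φ, h⟩

end MPbcd198.D
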