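import Pool.Agent.Lib.MP_bcd198_co.D.Flag

/-!
# MP_bcd198_co, Stream D, job StarF: the star of the base vertex of the tiling graph
-/

set_option autoImplicit false

namespace MPbcd198.D

open Equiv

variable {p q : ℕ}

/-- The parametrised `p`-cycles of the tiling graph starting at the base vertex are the
`faceF hyp g`, `g ∈ ⟨b,c⟩` (`faceF_injective`, `faceF_surjective`; `(faceF x) 0 = vt x = vt 1` iff
`x ∈ ⟨b,c⟩`, `vt_eq_iff`).  `E g := faceF g`.  The three properties:
`faceF_B`; `(E g) 1 = vt (A g)`, so `(E g) 1 = (E g') 1` iff `vt (A g) = vt (A g')` iff (`edge_flags`,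
`vt g = vt g'`) `g' = g ∨ g' = C g` (conversely `A C g = C A g` has the same vertex as `A g`,
`ac_comm`, `vt_mul_left`); a neighbour `w` of the base vertex is `vt (A x)` with `vt x = vt 1`
(`adj_iff`), so `x ∈ ⟨b,c⟩`. -/
theorem star_base (hyp : Hyp p q) : HasStar p q (tilingGraph p q) (baseV p q) := by
  have hC : gen p q 2 ∈ vSub p q := Subgroup.subset_closure (by simp)
  have hv : ∀ g : vSub p q, vt (g : Tri p q) = baseV p q := fun g => by
    have h := vt_mul_left (g : Tri p q) 1 g.2
    rw [mul_one] at h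
    rw [h, vt_one]
  let f : vSub p q → {C : PC p (tilingGraph p q) // C.1 0 = baseV p q} := fun g =>
    ⟨faceF hyp g, (faceF_zero hyp g).trans (hv g)⟩
  have hf : Function.Bijective f := by
    constructor
    · intro g g' h
      exact Subtype.ext (faceF_injective hyp (congrArg Subtype.val h))
    · rintro ⟨C, hC0⟩
      obtain ⟨x, rfl⟩ := faceF_surjective hyp C
      rw [faceF_zero, ← vt_one] at hC0
      obtain ⟨g, hg, h⟩ := (vt_eq_iff _ _).1 hC0.symm
      rw [mul_one] at h
      subst h
      exact ⟨⟨x, hg⟩, rfl⟩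
  refine ⟨Equiv.ofBijective f hf, ?_, ?_, ?_⟩
  · intro g
    exact faceF_B hyp g
  · intro g g'
    change (faceF hyp g).1 1 = (faceF hyp g').1 1 ↔ _
    rw [faceF_one, faceF_one]
    constructor
    · intro h
      rcases edge_flags hyp g g' ((hv g).trans (hv g').symm) h with h1 | h1
      · exact Or.inl (Subtype.ext h1)
      · exact Or.inr (Subtype.ext h1)
    · rintro (rfl | rfl)
      · rfl
      · change vt (gen p q 0 * (g : Tri p q)) = vt (gen p q 0 * (gen p q 2 * (g : Tri p q)))
        rw [← mul_assoc, ac_comm, mul_assoc, vt_mul_left _ _ hC]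
  · intro w hw
    obtain ⟨-, x, hx, rfl⟩ := (adj_iff _ _).1 hw
    rw [← vt_one] at hx
    obtain ⟨g, hg, h⟩ := (vt_eq_iff _ _).1 hx
    rw [mul_one] at h
    subst h
    exact ⟨⟨x, hg⟩, faceF_one hyp x⟩

end MPbcd198.D
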