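import Pool.Agent.Lib.MP_bcd198_co.D.Tri

/-!
# MP_bcd198_co, Stream D, job SuA: a graph all of whose vertices have a star gives a map
-/

set_option autoImplicit false

namespace MPbcd198.D

open Equiv

variable {p q : ℕ} {V : Type} {G : SimpleGraph V}

/-- `C ≠ 1` and `(BC)^k = 1 → q ∣ k` in the triangle group: from `self_map hyp` (IfG.lean), the
minimal period of `x ↦ B C x` at `1` is `q` and `c` has no fixed point. -/
theorem gen_two_ne (hyp : Hyp p q) : gen p q 2 ≠ 1 := by
  intro h
  have h1 := ((self_map hyp).pc 1).1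
  rw [h, (selfHom p q).map_one, Perm.one_apply] at h1
  exact h1 rfl

theorem bc_pow_dvd (hyp : Hyp p q) (k : ℕ) (h : (gen p q 1 * gen p q 2) ^ k = 1) : q ∣ k := by
  have h1 := (self_map hyp).bc 1
  have h2 : Function.IsPeriodicPt
      (⇑(selfHom p q (gen p q 1) * selfHom p q (gen p q 2))) k 1 := by
    rw [Function.IsPeriodicPt, Function.IsFixedPt, Perm.iterate_eq_pow, ← map_mul, ← map_pow, h,
      (selfHom p q).map_one, Perm.one_apply]
  have h3 := h2.minimalPeriod_dvd
  rwa [h1] at h3

/-- Let `v = C 0`, `E` the star of `v`, `C = E g`.  The other cycle is `C' = E (C g)`: it is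
different from `C` since `gen_two_ne`; if `C''` has the same `0` and `1` then `C'' = E g''` with
`g'' = g` or `g'' = C g`. -/
theorem twoCyc (hyp : Hyp p q) (hs : ∀ v, HasStar p q G v) : TwoCyc p G := by
  intro C
  obtain ⟨E, _, hE, _⟩ := hs (C.1 0)
  have hg : E (E.symm ⟨C, rfl⟩) = ⟨C, rfl⟩ := E.apply_symm_apply _
  set g := E.symm ⟨C, rfl⟩ with hgdef
  refine ⟨(E (vC p q * g)).1, ⟨?_, (E (vC p q * g)).2, ?_⟩, ?_⟩
  · intro h
    have h1 : E (vC p q * g) = E g := by
      rw [hg]
      exact Subtype.ext h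
    have h2 := E.injective h1
    have h3 : vC p q = 1 := mul_eq_right.1 h2
    exact gen_two_ne hyp (congrArg Subtype.val h3)
  · have h1 := (hE g (vC p q * g)).2 (Or.inr rfl)
    rw [hg] at h1
    exact h1.symm
  · rintro C'' ⟨h1, h2, h3⟩
    have hg'' : E (E.symm ⟨C'', h2⟩) = ⟨C'', h2⟩ := E.apply_symm_apply _
    set g'' := E.symm ⟨C'', h2⟩ with hg''def
    have h4 : (E g).1.1 1 = (E g'').1.1 1 := by
      rw [hg, hg'']
      exact h3.symm
    rcases (hE g g'').1 h4 with h5 | h5
    · exfalso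
      apply h1
      have h6 : E g'' = E g := by rw [h5]
      rw [hg, hg''] at h6
      exact congrArg Subtype.val h6
    · rw [← h5, hg'']

/-- in terms of a star `E` at `v`: `opC (E g) = E (C g)` (`opC_unique`) -/
theorem opC_star (hyp : Hyp p q) (h : TwoCyc p G) (v : V)
    (E : vSub p q ≃ {C : PC p G // C.1 0 = v})
    (hE : ∀ g g', (E g).1.1 1 = (E g').1.1 1 ↔ (g' = g ∨ g' = vC p q * g)) (g : vSub p q) :
    opC h (E g).1 = (E (vC p q * g)).1 := by
  symm
  apply opC_unique
  · intro h1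
    have h2 := E.injective (Subtype.ext h1)
    have h3 : vC p q = 1 := mul_eq_right.1 h2
    exact gen_two_ne hyp (congrArg Subtype.val h3)
  · rw [(E (vC p q * g)).2, (E g).2]
  · exact ((hE g (vC p q * g)).2 (Or.inr rfl)).symm

end MPbcd198.D
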