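import Pool.Agent.Lib.MP_bcd198_co.D.SuA

/-!
# MP_bcd198_co, Stream D, job SuB: a graph all of whose vertices have a star gives a map
-/

set_option autoImplicit false

namespace MPbcd198.D

open Equiv

variable {p q : ℕ} {V : Type} {G : SimpleGraph V}

private theorem SuB_period {α : Type} {f : α → α} {x : α} {n : ℕ}
    (h : ∀ k : ℕ, f^[k] x = x ↔ n ∣ k) : Function.minimalPeriod f x = n := by
  apply Nat.dvd_antisymm
  · have h1 : Function.IsPeriodicPt f n x := (h n).2 dvd_rfl
    exact h1.minimalPeriod_dvd
  · exact (h _).1 (Function.isPeriodicPt_minimalPeriod f x)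

private theorem SuB_ne (C : PC p G) : C.1 1 ≠ C.1 0 := by
  have h := C.2.2 0
  rw [zero_add] at h
  exact h.ne'

private theorem SuB_ab (C : PC p G) (k : ℕ) :
    (⇑(permA * permB : Perm (PC p G)))^[k] C =
      ⟨fun i => C.1 (i - k), fun i j h => by simpa using C.2.1 h, fun i => by
        have h := C.2.2 (i - k)
        rwa [show (i - k + 1 : ZMod p) = i + 1 - k by ring] at h⟩ := by
  induction k with
  | zero => apply Subtype.ext; funext i; simp
  | succ k ih =>
    rw [Function.iterate_succ', Function.comp_apply, ih]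
    apply Subtype.ext
    funext i
    have h : C.1 (-(1 - i) - (k : ZMod p)) = C.1 (i - ((k + 1 : ℕ) : ZMod p)) :=
      congrArg C.1 (by push_cast; ring)
    exact h

/-- `Om(G)` is a map.
`pa`: `(a C) 0 = C 1 ≠ C 0`.  `pb`: `(b C) 1 = C (-1) ≠ C 1` since `p ≥ 3`.  `pc`: `opC_spec`,
`opC_opC`.  `ab`: `(a (b C)) i = C (i - 1)`, the `k`-th iterate is `i ↦ C (i - k)`, equal to `C` iff
`p ∣ k`.  `bc`: with the star `E` of `C 0`, `b (c (E g)) = E (B C g)` (`opC_star`), so the `k`-th
iterate is `E ((BC)^k g)`, equal to `E g` iff `(BC)^k = 1` iff `q ∣ k`.  `ac`: `a (c C)` and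
`c (a C)` are both cycles with `0 ↦ C 1`, `1 ↦ C 0`, both different from `a C`: so they are equal
(`opC_unique`), hence `(ac)² = 1`; and `(a (c C)) 0 = C 1 ≠ C 0`, so `a c C ≠ C`. -/
theorem isMap_pc (hyp : Hyp p q) (hs : ∀ v, HasStar p q G v) (h : TwoCyc p G) :
    IsMap p q (permA : Perm (PC p G)) permB (permC h) := by
  have hp3 := hyp.hp
  refine ⟨?_, ?_, ?_, ?_, ?_, ?_⟩
  · intro C
    refine ⟨fun h1 => ?_, opA_opA C⟩
    have h2 : (opA C).1 0 = C.1 0 := by rw [show opA C = C from h1]
    rw [opA_apply, sub_zero] at h2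
    exact SuB_ne C h2
  · intro C
    refine ⟨fun h1 => ?_, opB_opB C⟩
    have h2 : (opB C).1 1 = C.1 1 := by rw [show opB C = C from h1]
    rw [opB_apply] at h2
    have h3 := C.2.1 h2
    have h4 : ((2 : ℕ) : ZMod p) = 0 := by
      have h5 : (1 : ZMod p) - (-1) = 0 := by rw [h3]; ring
      rw [← h5]
      push_cast
      ring
    rw [ZMod.natCast_eq_zero_iff] at h4
    have := Nat.le_of_dvd (by norm_num) h4
    omega
  · intro C
    exact ⟨(opC_spec h C).1, opC_opC h C⟩
  · intro C
    apply SuB_period
    intro k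
    rw [SuB_ab]
    constructor
    · intro h1
      have h2 := congrFun (congrArg Subtype.val h1) 0
      have h3 := C.2.1 h2
      rw [zero_sub, neg_eq_zero, ZMod.natCast_eq_zero_iff] at h3
      exact h3
    · intro h1
      apply Subtype.ext
      funext i
      have h2 : (k : ZMod p) = 0 := (ZMod.natCast_eq_zero_iff k p).2 h1
      simp only [h2, sub_zero]
  · intro C
    obtain ⟨E, hB, hE, _⟩ := hs (C.1 0)
    have hg : E (E.symm ⟨C, rfl⟩) = ⟨C, rfl⟩ := E.apply_symm_apply _
    set g := E.symm ⟨C, rfl⟩ with hgdef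
    have hstep : ∀ g : vSub p q, (permB * permC h : Perm (PC p G)) (E g).1 = (E (vB p q * vC p q * g)).1 := by
      intro g
      have h1 : (permB * permC h : Perm (PC p G)) (E g).1 = opB (opC h (E g).1) := rfl
      rw [h1, opC_star hyp h _ E hE, ← hB, mul_assoc]
    have hiter : ∀ k : ℕ, (⇑(permB * permC h : Perm (PC p G)))^[k] (E g).1 =
        (E ((vB p q * vC p q) ^ k * g)).1 := by
      intro k
      induction k with
      | zero => simp
      | succ k ih =>
        rw [Function.iterate_succ', Function.comp_apply, ih, hstep, pow_succ']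
        simp only [mul_assoc]
    have hC : C = (E g).1 := by rw [hg]
    rw [hC]
    apply SuB_period
    intro k
    rw [hiter]
    have hval : (((vB p q * vC p q) ^ k : vSub p q) : Tri p q) =
        (gen p q 1 * gen p q 2) ^ k := by
      rw [Subgroup.coe_pow]
      rfl
    constructor
    · intro h1
      have h2 := E.injective (Subtype.ext h1)
      have h3 : (vB p q * vC p q) ^ k = 1 := mul_eq_right.1 h2
      apply bc_pow_dvd hyp
      rw [← hval, h3]
      rfl
    · rintro ⟨l, rfl⟩
      have h3 : (vB p q * vC p q) ^ (q * l) = 1 := by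
        apply Subtype.ext
        rw [hval, pow_mul, bc_pow, one_pow]
        rfl
      rw [h3, one_mul]
  · intro C
    have h1 : ∀ C : PC p G, (permA * permC h : Perm (PC p G)) C = opA (opC h C) := fun _ => rfl
    have h2 : opC h (opA (opC h C)) = opA C := by
      symm
      obtain ⟨s1, s2, s3⟩ := opC_spec h C
      apply opC_unique
      · intro h3
        apply s1
        have h4 := congrArg opA h3
        rw [opA_opA, opA_opA] at h4
        exact h4.symm
      · rw [opA_apply, opA_apply, sub_zero, s3]
      · rw [opA_apply, opA_apply, sub_self, s2]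
    have h3 : (permA * permC h : Perm (PC p G)) ((permA * permC h : Perm (PC p G)) C) = C := by
      rw [h1, h1, h2, opA_opA]
    have h4 : (permA * permC h : Perm (PC p G)) C ≠ C := by
      rw [h1]
      intro h5
      have h6 := congrFun (congrArg Subtype.val h5) 0
      rw [opA_apply, sub_zero, (opC_spec h C).2.2] at h6
      exact SuB_ne C h6
    have h5 : Function.IsPeriodicPt (⇑(permA * permC h : Perm (PC p G))) 2 C := h3
    have h6 := h5.minimalPeriod_dvd
    rcases (Nat.dvd_prime Nat.prime_two).1 h6 with h7 | h7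
    · exact absurd (Function.minimalPeriod_eq_one_iff_isFixedPt.1 h7) h4
    · exact h7

end MPbcd198.D
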