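import Pool.Agent.Lib.MP_bcd198_co.D.Defs

/-!
# MP_bcd198_co, Stream D, job TiA: isomorphisms of triples of permutations
-/

set_option autoImplicit false

namespace MPbcd198.D

open Equiv

theorem TIso.refl {X : Type} (M : Trip X) : TIso M M :=
  ⟨Equiv.refl X, fun _ => ⟨rfl, rfl, rfl⟩⟩

theorem TIso.symm {X Y : Type} {M : Trip X} {N : Trip Y} (h : TIso M N) : TIso N M := by
  obtain ⟨e, he⟩ := h
  refine ⟨e.symm, fun y => ?_⟩
  obtain ⟨x, rfl⟩ := e.surjective y
  obtain ⟨h1, h2, h3⟩ := he x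
  rw [← h1, ← h2, ← h3]
  simp only [Equiv.symm_apply_apply, and_self]

theorem TIso.trans {X Y Z : Type} {M : Trip X} {N : Trip Y} {L : Trip Z} (h : TIso M N)
    (h' : TIso N L) : TIso M L := by
  obtain ⟨e, he⟩ := h
  obtain ⟨f, hf⟩ := h'
  refine ⟨e.trans f, fun x => ?_⟩
  obtain ⟨h1, h2, h3⟩ := he x
  obtain ⟨k1, k2, k3⟩ := hf (e x)
  refine ⟨?_, ?_, ?_⟩
  · rw [Equiv.trans_apply, h1, k1]; rfl
  · rw [Equiv.trans_apply, h2, k2]; rfl
  · rw [Equiv.trans_apply, h3, k3]; rfl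

/-- transport along a bijection: `N = (e.permCongr M.1, ...)` -/
theorem exists_tiso {X Y : Type} (e : X ≃ Y) (M : Trip X) : ∃ N : Trip Y, TIso M N := by
  refine ⟨(e.permCongr M.1, e.permCongr M.2.1, e.permCongr M.2.2), e, fun x => ?_⟩
  simp only [Equiv.permCongr_apply, Equiv.symm_apply_apply, and_self]

private theorem TiA_isPM {X Y : Type} (e : X ≃ Y) {a : Perm X} {a' : Perm Y}
    (h : ∀ x, e (a x) = a' (e x)) (ha : IsPM a) : IsPM a' := by
  intro y
  obtain ⟨x, rfl⟩ := e.surjective y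
  rw [← h, ← h, (ha x).2]
  exact ⟨fun h1 => (ha x).1 (e.injective h1), rfl⟩

private theorem TiA_rel {X Y : Type} (e : X ≃ Y) {r : ℕ} {a b : Perm X} {a' b' : Perm Y}
    (ha : ∀ x, e (a x) = a' (e x)) (hb : ∀ x, e (b x) = b' (e x)) (h : Rel r a b) :
    Rel r a' b' := by
  intro y
  obtain ⟨x, rfl⟩ := e.surjective y
  rw [← h x]
  have hs : Function.Semiconj e (⇑(a * b)) (⇑(a' * b')) := by
    intro z
    rw [Perm.mul_apply, Perm.mul_apply, ha, hb]
  rw [Function.minimalPeriod_eq_minimalPeriod_iff]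
  intro n
  have h1 : (⇑(a' * b'))^[n] (e x) = e ((⇑(a * b))^[n] x) := ((hs.iterate_right n) x).symm
  rw [Function.IsPeriodicPt, Function.IsFixedPt, h1, Function.IsPeriodicPt, Function.IsFixedPt]
  exact e.injective.eq_iff

/-- being a map is invariant (`minimalPeriod` is invariant under conjugation:
`Function.Semiconj`/`Function.minimalPeriod_eq_minimalPeriod_iff` or directly) -/
theorem tiso_isMap {p q : ℕ} {X Y : Type} {M : Trip X} {N : Trip Y} (h : TIso M N)
    (hM : IsMap p q M.1 M.2.1 M.2.2) : IsMap p q N.1 N.2.1 N.2.2 := by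
  obtain ⟨e, he⟩ := h
  have h1 := fun x => (he x).1
  have h2 := fun x => (he x).2.1
  have h3 := fun x => (he x).2.2
  exact ⟨TiA_isPM e h1 hM.pa, TiA_isPM e h2 hM.pb, TiA_isPM e h3 hM.pc, TiA_rel e h1 h2 hM.ab,
    TiA_rel e h2 h3 hM.bc, TiA_rel e h1 h3 hM.ac⟩

/-- transitivity is invariant: if `g` is a product of the three generators of `N` there is the
corresponding product `g'` for `M` with `e (g' x) = g (e x)` (`Subgroup.closure_induction`) -/
theorem tiso_trans {X Y : Type} {M : Trip X} {N : Trip Y} (h : TIso M N) (hN : TripTrans N) :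
    TripTrans M := by
  obtain ⟨e, he⟩ := h
  intro x y
  obtain ⟨g, hg, hgx⟩ := hN (e x) (e y)
  have key : ∀ g ∈ Subgroup.closure ({N.1, N.2.1, N.2.2} : Set (Perm Y)),
      ∃ g' ∈ Subgroup.closure ({M.1, M.2.1, M.2.2} : Set (Perm X)), ∀ x, e (g' x) = g (e x) := by
    intro g hg
    induction hg using Subgroup.closure_induction with
    | mem g hg =>
      simp only [Set.mem_insert_iff, Set.mem_singleton_iff] at hg
      rcases hg with rfl | rfl | rfl
      · exact ⟨M.1, Subgroup.subset_closure (by simp), fun x => (he x).1⟩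
      · exact ⟨M.2.1, Subgroup.subset_closure (by simp), fun x => (he x).2.1⟩
      · exact ⟨M.2.2, Subgroup.subset_closure (by simp), fun x => (he x).2.2⟩
    | one => exact ⟨1, one_mem _, fun x => rfl⟩
    | mul g k _ _ ih1 ih2 =>
      obtain ⟨g', hg', h1⟩ := ih1
      obtain ⟨k', hk', h2⟩ := ih2
      refine ⟨g' * k', mul_mem hg' hk', fun x => ?_⟩
      rw [Perm.mul_apply, Perm.mul_apply, h1, h2]
    | inv g _ ih =>
      obtain ⟨g', hg', h1⟩ := ih
      refine ⟨g'⁻¹, inv_mem hg', fun x => ?_⟩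
      rw [Perm.eq_inv_iff_eq, ← h1]
      simp
  obtain ⟨g', hg', h1⟩ := key g hg
  refine ⟨g', hg', e.injective ?_⟩
  rw [h1, hgx]

/-- on the same set, isomorphism is conjugation -/
theorem tiso_setoid {p q : ℕ} {X : Type} (M N : MapOn p q X) (h : TIso M.1 N.1) :
    (mapSetoid p q X).r M N := by
  obtain ⟨e, he⟩ := h
  have key : ∀ (a a' : Perm X), (∀ x, e (a x) = a' (e x)) → a' = (e : Perm X) * a * e⁻¹ := by
    intro a a' h
    rw [eq_mul_inv_iff_mul_eq]
    ext x
    exact (h x).symm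
  exact ⟨e, key _ _ fun x => (he x).1, key _ _ fun x => (he x).2.1, key _ _ fun x => (he x).2.2⟩

theorem setoid_tiso {p q : ℕ} {X : Type} (M N : MapOn p q X) (h : (mapSetoid p q X).r M N) :
    TIso M.1 N.1 := by
  obtain ⟨σ, h1, h2, h3⟩ := h
  refine ⟨σ, fun x => ?_⟩
  rw [h1, h2, h3]
  simp

end MPbcd198.D
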