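import Pool.Agent.Lib.MP_bcd198_co.D.TriG

/-!
# MP_bcd198_co, Stream D, job TriV: the generators, the subgroup `⟨b,c⟩`, balls, vertices

Notation: `A = gen p q 0`, `B = gen p q 1`, `C = gen p q 2`.  Relators: `triRels` in `Defs.lean`
(use `PresentedGroup.one_of_mem` exactly as in `tilingGraph.symm`).
-/

set_option autoImplicit false

namespace MPbcd198.D

open Equiv

variable {p q : ℕ}

/-- Every element of `⟨b,c⟩` is `(BC)^i` or `(BC)^i B` with `i < q` (the set of these elements
contains `1` and is closed under left multiplication by `B` and `C`: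
`B (BC)^i = (CB)^i B = (BC)^(q-i) B`, `C (BC)^i = C (BC)^i B B = ...`, use
`Subgroup.closure_induction_left`). -/
theorem vSub_form (hq : 0 < q) (g : Tri p q) (hg : g ∈ vSub p q) :
    ∃ i < q, g = (gen p q 1 * gen p q 2) ^ i ∨ g = (gen p q 1 * gen p q 2) ^ i * gen p q 1 := by
  have hinv : (gen p q 1 * gen p q 2)⁻¹ = gen p q 2 * gen p q 1 := by
    rw [mul_inv_rev, gen_inv, gen_inv]
  -- B conjugates BC to its inverse
  have hB : ∀ i : ℤ, gen p q 1 * (gen p q 1 * gen p q 2) ^ i =
      (gen p q 1 * gen p q 2) ^ (-i) * gen p q 1 := by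
    intro i
    have h1 : gen p q 1 * (gen p q 1 * gen p q 2) * (gen p q 1)⁻¹ = (gen p q 1 * gen p q 2)⁻¹ := by
      rw [hinv, gen_inv, ← mul_assoc, gen_sq, one_mul]
    have h2 : gen p q 1 * (gen p q 1 * gen p q 2) ^ i * (gen p q 1)⁻¹ =
        (gen p q 1 * gen p q 2) ^ (-i) := by
      rw [← conj_zpow, h1, inv_zpow, zpow_neg]
    rw [← h2, inv_mul_cancel_right]
  have hC : ∀ i : ℤ, gen p q 2 * (gen p q 1 * gen p q 2) ^ i =
      (gen p q 1 * gen p q 2) ^ (-(i + 1)) * gen p q 1 := by
    intro i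
    have h1 : gen p q 2 = gen p q 1 * (gen p q 1 * gen p q 2) := by
      rw [← mul_assoc, gen_sq, one_mul]
    have h2 : gen p q 2 * (gen p q 1 * gen p q 2) ^ i =
        gen p q 1 * ((gen p q 1 * gen p q 2) * (gen p q 1 * gen p q 2) ^ i) := by
      rw [← mul_assoc (gen p q 1) (gen p q 1 * gen p q 2), ← h1]
    rw [h2, ← zpow_one_add, hB, add_comm]
  have hint : ∀ k : ℤ, ∃ i < q, (gen p q 1 * gen p q 2) ^ k = (gen p q 1 * gen p q 2) ^ i := by
    intro k
    refine ⟨(k % q).toNat, ?_, ?_⟩
    · have h1 := Int.emod_lt_of_pos k (b := (q : ℤ)) (by exact_mod_cast hq)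
      have h2 := Int.emod_nonneg k (b := (q : ℤ)) (by exact_mod_cast hq.ne')
      omega
    · have h2 := Int.emod_nonneg k (b := (q : ℤ)) (by exact_mod_cast hq.ne')
      rw [← zpow_natCast, Int.toNat_of_nonneg h2]
      conv_lhs => rw [← Int.emod_add_mul_ediv k q]
      rw [zpow_add, zpow_mul, zpow_natCast, bc_pow, one_zpow, mul_one]
  have key : ∃ k : ℤ, g = (gen p q 1 * gen p q 2) ^ k ∨
      g = (gen p q 1 * gen p q 2) ^ k * gen p q 1 := by
    have hstep : ∀ s : Tri p q, s = gen p q 1 ∨ s = gen p q 2 → ∀ y : Tri p q,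
        (∃ k : ℤ, y = (gen p q 1 * gen p q 2) ^ k ∨
          y = (gen p q 1 * gen p q 2) ^ k * gen p q 1) →
        (∃ k : ℤ, s * y = (gen p q 1 * gen p q 2) ^ k ∨
          s * y = (gen p q 1 * gen p q 2) ^ k * gen p q 1) := by
      rintro s (rfl | rfl) y ⟨k, rfl | rfl⟩
      · exact ⟨-k, Or.inr (hB k)⟩
      · exact ⟨-k, Or.inl (by rw [← mul_assoc, hB, mul_assoc, gen_sq, mul_one])⟩
      · exact ⟨-(k + 1), Or.inr (hC k)⟩
      · exact ⟨-(k + 1), Or.inl (by rw [← mul_assoc, hC, mul_assoc, gen_sq, mul_one])⟩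
    refine Subgroup.closure_induction_left (p := fun g _ => ∃ k : ℤ,
      g = (gen p q 1 * gen p q 2) ^ k ∨ g = (gen p q 1 * gen p q 2) ^ k * gen p q 1)
      ⟨0, Or.inl (by simp)⟩ ?_ ?_ hg
    · intro s hs y _ hy
      exact hstep s hs y hy
    · intro s hs y _ hy
      have h1 : s⁻¹ = s := by
        rcases hs with rfl | rfl
        · exact gen_inv 1
        · exact gen_inv 2
      rw [h1]
      exact hstep s hs y hy
  obtain ⟨k, h⟩ := key
  obtain ⟨i, hi, hk⟩ := hint k
  refine ⟨i, hi, ?_⟩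
  rw [hk] at h
  exact h

private theorem TriV_pow_ball (i : ℕ) : (gen p q 1 * gen p q 2) ^ i ∈ ballT p q (2 * i) := by
  induction i with
  | zero => simpa using one_ball 0
  | succ i ih =>
    rw [pow_succ, show 2 * (i + 1) = 2 * i + (1 + 1) by ring]
    exact ballT_mul ih (ballT_mul (gen_ball 1) (gen_ball 2))

/-- length at most `2q` (from `vSub_form`: `2 i + 1 ≤ 2 q`) -/
theorem vSub_ball (hq : 0 < q) (g : Tri p q) (hg : g ∈ vSub p q) : g ∈ ballT p q (2 * q) := by
  obtain ⟨i, hi, rfl | rfl⟩ := vSub_form hq g hg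
  · exact ballT_mono (by omega) (TriV_pow_ball i)
  · exact ballT_mono (by omega) (ballT_mul (TriV_pow_ball i) (gen_ball 1))

/-- `|⟨b,c⟩| = 2q`.  By `vSub_form` the map `Fin q × Bool → vSub`, `(i, s) ↦ (BC)^i B^s` is
surjective.  It is injective: by `self_map hyp : IsMapHom (selfHom p q)` the permutation
`x ↦ BC x` of `Tri p q` has minimal period `q` at `1`, so the `(BC)^i`, `i < q`, are distinct; and
`(BC)^i B = (BC)^j` would give `B = (BC)^k`, so `B` commutes with `BC`, hence
`CB = B (BC) B = BC`, `(BC)² = 1`, minimal period `≤ 2 < q`, contradiction. -/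
theorem card_vSub (hyp : Hyp p q) : Nat.card (vSub p q) = 2 * q := by
  have hq := hyp.hq
  have hs := self_map hyp
  set u : Tri p q := gen p q 1 * gen p q 2 with hu
  have hper : ∀ k : ℕ, u ^ k = 1 → q ∣ k := by
    intro k hk
    have h1 := hs.bc 1
    rw [← map_mul] at h1
    rw [← h1]
    apply Function.IsPeriodicPt.minimalPeriod_dvd
    change (⇑(selfHom p q (gen p q 1 * gen p q 2)))^[k] 1 = 1
    rw [Equiv.Perm.iterate_eq_pow, ← map_pow, ← hu, hk, (selfHom p q).map_one]
    rfl
  have hinj : ∀ i < q, ∀ j < q, u ^ i = u ^ j → i = j := by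
    have aux : ∀ i j : ℕ, i ≤ j → j < q → u ^ i = u ^ j → i = j := by
      intro i j hij hj h
      have h1 : u ^ (j - i) = 1 := by
        have h2 : u ^ j = u ^ i * u ^ (j - i) := by rw [← pow_add, Nat.add_sub_cancel' hij]
        rw [h2] at h
        exact (left_eq_mul.1 h)
      have := Nat.eq_zero_of_dvd_of_lt (hper _ h1) (by omega)
      omega
    intro i hi j hj h
    rcases Nat.le_total i j with hij | hij
    · exact aux i j hij hj h
    · exact (aux j i hij hi h.symm).symm
  have hBne : ∀ i j : ℕ, u ^ i * gen p q 1 ≠ u ^ j := by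
    intro i j h
    have h1 : gen p q 1 = u ^ (-(i : ℤ)) * u ^ j := by
      rw [← h, zpow_neg, zpow_natCast, inv_mul_cancel_left]
    have h2 : gen p q 1 * u = u * gen p q 1 := by
      rw [h1, ← zpow_natCast, ← zpow_add, ← zpow_add_one, ← zpow_one_add, add_comm]
    have h3 : u ^ 2 = 1 := by
      have h4 : gen p q 2 = u * gen p q 1 := by
        rw [← h2, hu, ← mul_assoc, gen_sq, one_mul]
      have h6 : gen p q 2 * gen p q 1 = u := by rw [h4, mul_assoc, gen_sq, mul_one]
      have h5 : u * u = 1 := by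
        nth_rewrite 2 [← h6]
        rw [hu, mul_assoc, ← mul_assoc (gen p q 2), gen_sq, one_mul, gen_sq]
      rw [pow_two, h5]
    have := Nat.le_of_dvd (by norm_num) (hper 2 h3)
    omega
  have hmB : gen p q 1 ∈ vSub p q := Subgroup.subset_closure (by simp)
  have hmC : gen p q 2 ∈ vSub p q := Subgroup.subset_closure (by simp)
  have hmu : u ∈ vSub p q := mul_mem hmB hmC
  let f : Fin q × Bool → vSub p q := fun x =>
    ⟨u ^ (x.1 : ℕ) * (if x.2 then gen p q 1 else 1), by
      split_ifs
      · exact mul_mem (pow_mem hmu _) hmB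
      · exact mul_mem (pow_mem hmu _) (one_mem _)⟩
  have hf : Function.Bijective f := by
    constructor
    · rintro ⟨i, s⟩ ⟨j, t⟩ h
      have h' : u ^ (i : ℕ) * (if s then gen p q 1 else 1) =
          u ^ (j : ℕ) * (if t then gen p q 1 else 1) := congrArg Subtype.val h
      cases s <;> cases t
      · simp only [Bool.false_eq_true, if_false, mul_one] at h'
        have := hinj i i.2 j j.2 h'
        simp [Fin.ext this]
      · simp only [Bool.false_eq_true, if_false, if_true, mul_one] at h'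
        exact absurd h'.symm (hBne _ _)
      · simp only [Bool.false_eq_true, if_false, if_true, mul_one] at h'
        exact absurd h' (hBne _ _)
      · simp only [if_true] at h'
        have := hinj i i.2 j j.2 (mul_right_cancel h')
        simp [Fin.ext this]
    · rintro ⟨g, hg⟩
      obtain ⟨i, hi, h | h⟩ := vSub_form (by omega) g hg
      · exact ⟨(⟨i, hi⟩, false), Subtype.ext (by simp [f, h, hu])⟩
      · exact ⟨(⟨i, hi⟩, true), Subtype.ext (by simp [f, h, hu])⟩
  rw [← Nat.card_congr (Equiv.ofBijective f hf), Nat.card_prod]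
  simp [mul_comm]

end MPbcd198.D
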