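import Pool.Agent.Lib.MP_bcd198_co.D.Defs
import Pool.Agent.Lib.MP_bcd198_co.IfG

/-!
# MP_bcd198_co, Stream D, job TriG: the generators, the subgroup `⟨b,c⟩`, balls, vertices

Notation: `A = gen p q 0`, `B = gen p q 1`, `C = gen p q 2`.  Relators: `triRels` in `Defs.lean`
(use `PresentedGroup.one_of_mem` exactly as in `tilingGraph.symm`).
-/

set_option autoImplicit false

namespace MPbcd198.D

open Equiv

variable {p q : ℕ}

/-- `A² = B² = C² = 1`. -/
theorem gen_sq (i : Fin 3) : gen p q i * gen p q i = 1 := by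
  have : (PresentedGroup.mk (triRels p q)) (FreeGroup.of i ^ 2) = 1 :=
    PresentedGroup.one_of_mem (by fin_cases i <;> simp [triRels])
  simpa [pow_two, gen, PresentedGroup.of] using this

theorem gen_inv (i : Fin 3) : (gen p q i)⁻¹ = gen p q i :=
  inv_eq_of_mul_eq_one_left (gen_sq i)

private theorem TriG_ac : (gen p q 0 * gen p q 2) ^ 2 = 1 := by
  have : (PresentedGroup.mk (triRels p q)) ((FreeGroup.of 0 * FreeGroup.of 2) ^ 2) = 1 :=
    PresentedGroup.one_of_mem (by simp [triRels])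
  simpa [gen, PresentedGroup.of] using this

private theorem TriG_ab : (gen p q 0 * gen p q 1) ^ p = 1 := by
  have : (PresentedGroup.mk (triRels p q)) ((FreeGroup.of 0 * FreeGroup.of 1) ^ p) = 1 :=
    PresentedGroup.one_of_mem (by simp [triRels])
  simpa [gen, PresentedGroup.of] using this

/-- `AC = CA`, from `(AC)² = 1` and `gen_sq`. -/
theorem ac_comm : gen p q 0 * gen p q 2 = gen p q 2 * gen p q 0 := by
  have h := TriG_ac (p := p) (q := q)
  rw [pow_two] at h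
  have h1 := eq_inv_of_mul_eq_one_left h
  rw [mul_inv_rev, gen_inv, gen_inv] at h1
  exact h1

/-- `(BA)^p = 1`: it is the inverse of `(AB)^p = 1`. -/
theorem ba_pow : (gen p q 1 * gen p q 0) ^ p = 1 := by
  have h := TriG_ab (p := p) (q := q)
  have h1 := congrArg (fun x => x⁻¹) h
  simp only [inv_one, ← inv_pow, mul_inv_rev, gen_inv] at h1
  exact h1

/-- `(BC)^q = 1`. -/
theorem bc_pow : (gen p q 1 * gen p q 2) ^ q = 1 := by
  have : (PresentedGroup.mk (triRels p q)) ((FreeGroup.of 1 * FreeGroup.of 2) ^ q) = 1 :=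
    PresentedGroup.one_of_mem (by simp [triRels])
  simpa [gen, PresentedGroup.of] using this

/-- For an integer exponent congruent to `i`: `(BA)^(i.val) = (BA)^k` if `(k : ZMod p) = i`. -/
theorem ba_val (hp : p ≠ 0) (i : ZMod p) (k : ℤ) (h : (k : ZMod p) = i) :
    (gen p q 1 * gen p q 0) ^ i.val = (gen p q 1 * gen p q 0) ^ k := by
  have : NeZero p := ⟨hp⟩
  have h1 : ((i.val : ℤ) : ZMod p) = (k : ZMod p) := by
    rw [h]
    simp
  have h2 : (p : ℤ) ∣ k - i.val := (ZMod.intCast_eq_intCast_iff_dvd_sub _ _ _).1 h1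
  obtain ⟨m, hm⟩ := h2
  have h3 : k = i.val + p * m := by linarith
  rw [h3, zpow_add, zpow_mul, zpow_natCast, zpow_natCast, ba_pow, one_zpow, mul_one]

/-- `vt x = vt y` iff `y ∈ ⟨b,c⟩ x` (`QuotientGroup.eq`, `(x⁻¹)⁻¹ y⁻¹ = x y⁻¹`). -/
theorem vt_eq_iff (x y : Tri p q) : vt x = vt y ↔ ∃ g ∈ vSub p q, y = g * x := by
  unfold vt
  rw [QuotientGroup.eq, inv_inv]
  constructor
  · intro h
    refine ⟨(x * y⁻¹)⁻¹, inv_mem h, ?_⟩
    simp
  · rintro ⟨g, hg, rfl⟩
    have := inv_mem hg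
    simpa using this

theorem vt_surj (v : Tri p q ⧸ vSub p q) : ∃ x, vt x = v := by
  obtain ⟨g, rfl⟩ := QuotientGroup.mk_surjective v
  exact ⟨g⁻¹, by simp [vt]⟩

theorem vt_one : vt (1 : Tri p q) = baseV p q := by
  simp [vt, baseV]

theorem vt_mul_left (g x : Tri p q) (hg : g ∈ vSub p q) : vt (g * x) = vt x :=
  ((vt_eq_iff x (g * x)).2 ⟨g, hg, rfl⟩).symm

/-- adjacency in the tiling graph in terms of flags -/
theorem adj_iff (v w : Tri p q ⧸ vSub p q) : (tilingGraph p q).Adj v w ↔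
    v ≠ w ∧ ∃ x, v = vt x ∧ w = vt (gen p q 0 * x) := by
  constructor
  · rintro ⟨hne, g, hx, hy⟩
    refine ⟨hne, g⁻¹, by rw [hx]; simp [vt], ?_⟩
    rw [hy]
    unfold vt
    rw [mul_inv_rev, inv_inv, gen_inv]
  · rintro ⟨hne, x, hx, hy⟩
    refine ⟨hne, x⁻¹, hx, ?_⟩
    rw [hy]
    unfold vt
    rw [mul_inv_rev, gen_inv]

/-- balls: product and inverse -/
theorem ballT_mul {k l : ℕ} {g h : Tri p q} (hg : g ∈ ballT p q k) (hh : h ∈ ballT p q l) :
    g * h ∈ ballT p q (k + l) := by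
  obtain ⟨w, hw, rfl⟩ := hg
  obtain ⟨w', hw', rfl⟩ := hh
  refine ⟨w ++ w', by simp; omega, by simp⟩

theorem ballT_inv {k : ℕ} {g : Tri p q} (hg : g ∈ ballT p q k) : g⁻¹ ∈ ballT p q k := by
  obtain ⟨w, hw, rfl⟩ := hg
  refine ⟨w.reverse, by simpa using hw, ?_⟩
  rw [List.prod_inv_reverse, List.map_reverse, List.map_map]
  congr 2
  apply List.map_congr_left
  intro i _
  simp [gen_inv]

theorem ballT_mono {k l : ℕ} (h : k ≤ l) : ballT p q k ⊆ ballT p q l := by
  rintro g ⟨w, hw, hg⟩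
  exact ⟨w, hw.trans h, hg⟩

theorem gen_ball (i : Fin 3) : gen p q i ∈ ballT p q 1 :=
  ⟨[i], by simp, by simp⟩

theorem one_ball (k : ℕ) : (1 : Tri p q) ∈ ballT p q k :=
  ⟨[], by simp, by simp⟩

end MPbcd198.D
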